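import Pool.Agent.Helper44.KM.Five

/-!
# The number of pairs with a given difference of `l x + l (1 - x)`
-/

open Polynomial Finset

namespace Pool.Agent.Helper44.KM

open Pool.Agent.Helper79.KM

/-- a sum of roots of unity of prime order which is an integer -/
theorem count_prime {r : ℕ} [hr : Fact r.Prime] {L : Type*} [Field L] [CharZero L] {z : L}
    (hz : IsPrimitiveRoot z r) {ι : Type*} (s : Finset ι) (f : ι → ZMod r) (C₀ : ℤ)
    (h : ∑ i ∈ s, z ^ (f i).val = C₀) {j : ZMod r} (hj : j ≠ 0) :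
    ((s.filter fun i => f i = 0).card : ℤ) = (s.filter fun i => f i = j).card + C₀ := by
  classical
  have hp := hr.out
  have : NeZero r := ⟨hp.ne_zero⟩
  set G : ℤ[X] := ∑ i ∈ s, X ^ (f i).val - C C₀ with hG
  have h1 : aeval z G = 0 := by
    rw [hG, map_sub, map_sum, aeval_C, algebraMap_int_eq, eq_intCast, ← h, sub_eq_zero]
    exact sum_congr rfl fun i _ => by rw [map_pow, aeval_X]
  have h2 : cyclotomic r ℤ ∣ G := by
    rw [cyclotomic_eq_minpoly hz hp.pos]
    exact minpoly.isIntegrallyClosed_dvd (hz.isIntegral hp.pos) h1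
  have hdeg : G.natDegree ≤ r - 1 := by
    rw [hG]
    refine (natDegree_sub_le _ _).trans (max_le ?_ ?_)
    · refine natDegree_sum_le_of_forall_le _ _ fun i _ => ?_
      rw [natDegree_X_pow]
      have := ZMod.val_lt (f i)
      omega
    · rw [natDegree_C]
      omega
  obtain ⟨H, hH⟩ := h2
  have hH0 : ∃ a : ℤ, H = C a := by
    by_cases h0 : H = 0
    · exact ⟨0, by rw [h0, C_0]⟩
    · refine ⟨H.coeff 0, eq_C_of_natDegree_eq_zero ?_⟩
      have h3 : G.natDegree = (cyclotomic r ℤ).natDegree + H.natDegree := by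
        rw [hH, natDegree_mul (cyclotomic_ne_zero r ℤ) h0]
      rw [natDegree_cyclotomic, Nat.totient_prime hp] at h3
      omega
  obtain ⟨a, ha⟩ := hH0
  rw [ha] at hH
  have hc : ∀ n < r, (cyclotomic r ℤ).coeff n = 1 := by
    intro n hn
    rw [cyclotomic_prime, finsetSum_coeff]
    simp only [coeff_X_pow]
    rw [sum_ite_eq, if_pos (mem_range.2 hn)]
  have hcoef : ∀ n : ZMod r, G.coeff n.val = ((s.filter fun i => f i = n).card : ℤ) -
      if n = 0 then C₀ else 0 := by
    intro n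
    rw [hG, coeff_sub, finsetSum_coeff, coeff_C, card_filter]
    push_cast
    congr 1
    · refine sum_congr rfl fun i _ => ?_
      rw [coeff_X_pow]
      congr 1
      rw [eq_iff_iff]
      constructor
      · intro h3
        exact (ZMod.val_injective r h3).symm
      · intro h3
        rw [h3]
    · congr 1
      rw [eq_iff_iff]
      exact ZMod.val_eq_zero n
  have hval : ∀ n : ZMod r, G.coeff n.val = a := by
    intro n
    rw [hH, coeff_mul_C, hc _ (ZMod.val_lt n), one_mul]
  have e0 := hcoef 0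
  have ej := hcoef j
  rw [hval, if_pos rfl] at e0
  rw [hval, if_neg hj] at ej
  linear_combination ej - e0

section

variable {K : Type*} [Field K] [Fintype K] [DecidableEq K] {r : ℕ} {l : K → ZMod r}

theorem pow_val_add' {L : Type*} [Monoid L] [NeZero r] {z : L} (hz : z ^ r = 1) (a b : ZMod r) :
    z ^ (a + b).val = z ^ a.val * z ^ b.val := by
  rw [← pow_add, ZMod.val_add, ← pow_mod_orderOf, ← pow_mod_orderOf z (a.val + b.val)]
  congr 1
  exact Nat.mod_mod_of_dvd _ (orderOf_dvd_of_pow_eq_one hz)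

/-- the character given by a logarithm -/
noncomputable def lchar [NeZero r] (hl : IsLog l) {L : Type*} [Field L] {z : L} (hz : z ^ r = 1) :
    MulChar K L where
  toFun x := if x = 0 then 0 else z ^ (l x).val
  map_one' := by
    rw [if_neg one_ne_zero, hl.one, ZMod.val_zero, pow_zero]
  map_mul' x y := by
    rcases eq_or_ne x 0 with rfl | hx
    · simp
    rcases eq_or_ne y 0 with rfl | hy
    · simp
    rw [if_neg (mul_ne_zero hx hy), if_neg hx, if_neg hy, hl.mul x y hx hy, pow_val_add' hz]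
  map_nonunit' x hx := by
    have : x = 0 := by
      by_contra h
      exact hx (isUnit_iff_ne_zero.2 h)
    rw [if_pos this]

omit [Fintype K] in
theorem lchar_apply [NeZero r] (hl : IsLog l) {L : Type*} [Field L] {z : L} (hz : z ^ r = 1)
    {x : K} (hx : x ≠ 0) : lchar hl hz x = z ^ (l x).val := if_neg hx

theorem sum_rest {M : Type*} [AddCommMonoid M] (g : K → M) (h0 : g 0 = 0) (h1 : g 1 = 0) :
    ∑ x, g x = ∑ x ∈ rest K, g x := by
  have h1mem : (1 : K) ∈ univ.erase (0 : K) := by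
    rw [mem_erase]
    exact ⟨one_ne_zero, mem_univ _⟩
  rw [rest, ← add_sum_erase univ g (mem_univ 0), ← add_sum_erase _ g h1mem, h0, h1, zero_add,
    zero_add]

/-- the number of pairs with a given difference of `l x + l (1 - x)` -/
theorem pair_count [hr : Fact r.Prime] (hr2 : r ≠ 2) (hl : IsLog l) (h0 : ∃ x, l x ≠ 0)
    {j : ZMod r} (hj : j ≠ 0) :
    ((((rest K) ×ˢ (rest K)).filter fun P =>
      (l P.1 + l (1 - P.1)) - (l P.2 + l (1 - P.2)) = 0).card : ℤ) =
        (((rest K) ×ˢ (rest K)).filter fun P =>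
          (l P.1 + l (1 - P.1)) - (l P.2 + l (1 - P.2)) = j).card + Fintype.card K := by
  have : NeZero r := ⟨hr.out.ne_zero⟩
  obtain ⟨g, hg⟩ := h0
  have hg0 : g ≠ 0 := by
    rintro rfl
    exact hg hl.zero
  have hz := Complex.isPrimitiveRoot_exp r hr.out.ne_zero
  set z := Complex.exp (2 * Real.pi * Complex.I / r)
  have hz1 := hz.pow_eq_one
  set χ := lchar hl hz1 with hχ
  have happ : ∀ x : K, x ≠ 0 → χ x = z ^ (l x).val := fun x hx => lchar_apply hl hz1 hx
  have hinv : ∀ x : K, x ≠ 0 → χ⁻¹ x = z ^ (-l x).val := by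
    intro x hx
    rw [MulChar.inv_apply', happ _ (inv_ne_zero hx), hl.inv]
  have hpow : ∀ a : ZMod r, a ≠ 0 → z ^ a.val ≠ 1 := by
    intro a ha h
    have h1 := (hz.pow_eq_one_iff_dvd _).1 h
    have h2 := Nat.eq_zero_of_dvd_of_lt h1 (ZMod.val_lt a)
    exact ha ((ZMod.val_eq_zero a).1 h2)
  have hne : χ ≠ 1 := by
    intro h
    have h1 := happ g hg0
    rw [h, MulChar.one_apply (isUnit_iff_ne_zero.2 hg0)] at h1
    exact hpow _ hg h1.symm
  have hne2 : χ * χ ≠ 1 := by
    intro h
    have h1 : (χ * χ) g = z ^ (l g + l g).val := by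
      rw [MulChar.mul_apply, happ g hg0, pow_val_add' hz1]
    rw [h, MulChar.one_apply (isUnit_iff_ne_zero.2 hg0)] at h1
    refine hpow _ ?_ h1.symm
    intro h2
    have h3 : (2 : ZMod r) * l g = 0 := by linear_combination h2
    rcases mul_eq_zero.1 h3 with h4 | h4
    · exact two_ne hr2 h4
    · exact hg h4
  have hring : ringChar ℂ ≠ ringChar K := by
    rw [ringChar.eq_zero]
    intro h
    have : CharP K 0 := by
      rw [h]
      exact ringChar.charP K
    have : CharZero K := CharP.charP_to_charZero K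
    exact not_injective_infinite_finite (Nat.cast : ℕ → K) Nat.cast_injective
  have hJ := jacobiSum_mul_jacobiSum_inv hring hne hne hne2
  rw [jacobiSum, jacobiSum] at hJ
  have e0 : (1 - 0 : K) = 1 := sub_zero 1
  have e1 : (1 - 1 : K) = 0 := sub_self 1
  have z0 : χ 0 = 0 := χ.map_zero
  have z1 : χ⁻¹ 0 = 0 := χ⁻¹.map_zero
  rw [sum_rest (fun x => χ x * χ (1 - x)) (by simp only [z0, zero_mul])
    (by simp only [e1, z0, mul_zero]), sum_rest (fun x => χ⁻¹ x * χ⁻¹ (1 - x))
      (by simp only [z1, zero_mul]) (by simp only [e1, z1, mul_zero]), sum_mul_sum,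
      ← sum_product'] at hJ
  refine count_prime hz _ _ _ ?_ hj
  rw [Int.cast_natCast, ← hJ]
  refine sum_congr rfl fun P hP => ?_
  rw [mem_product, mem_rest, mem_rest] at hP
  obtain ⟨⟨h1, h2⟩, h3, h4⟩ := hP
  rw [happ _ h2, happ _ (sub_ne_zero.2 (Ne.symm h1)), hinv _ h4,
    hinv _ (sub_ne_zero.2 (Ne.symm h3)), ← pow_val_add' hz1, ← pow_val_add' hz1,
    ← pow_val_add' hz1]
  congr 2
  ring

end

/-- the table of the sums of powers of the logarithms modulo five -/
theorem five_table' {K : Type*} [Field K] [Fintype K] [hr : Fact (Nat.Prime 5)]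
    {l : K → ZMod 5} (hl : IsLog l) (h0 : ∃ x, l x ≠ 0) {w : ℕ}
    (hw : Fintype.card K = 5 * w + 1) :
    bs l 4 2 = -bs l 2 1 ^ 2 ∧ bs l 3 3 = bs l 2 1 ^ 2 ∧ bs l 3 2 = bs l 4 1 ∧
      bs l 4 3 = bs l 2 1 ∧ bs l 3 1 = 2 * (w : ZMod 5) ∧ bs l 2 2 = 2 * (w : ZMod 5) ∧
        bs l 1 1 = 0 ∧ ∑ x, l x ^ 4 = -(w : ZMod 5) ∧
          bs l 4 4 = 2 * (w : ZMod 5) - (w : ZMod 5) ^ 2 + 2 * bs l 2 1 * bs l 4 1 := by
  classical
  exact five_table hl h0 hw fun j hj => pair_count (by norm_num) hl h0 hj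

end Pool.Agent.Helper44.KM
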