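import Pool.Agent.Helper79.KM.Lo
import Pool.Agent.Helper79.KM.Plane

/-!
# The mixed moment of degree four and four
-/

open Finset

namespace Pool.Agent.Helper44.KM

open Pool.Agent.Helper79.KM

/-- a part of the polynomial -/
def qN4 {R : Type*} [CommRing R] (a b c d _e : R) : R :=
  -16 * a ^ 4 * c ^ 4 + 24 * a ^ 4 * c ^ 2 * d ^ 2 - 8 * a ^ 4 * c * d ^ 3 + 24 * a ^ 3 * b * c
    ^ 4 + 24 * a ^ 3 * b * c ^ 3 * d - 72 * a ^ 3 * b * c ^ 2 * d ^ 2 + 24 * a ^ 3 * b * c * d ^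
    3 + 20 * a ^ 3 * c ^ 5 - 72 * a ^ 3 * c ^ 4 * d + 60 * a ^ 3 * c ^ 3 * d ^ 2 - 8 * a ^ 3 * c
    ^ 2 * d ^ 3 - 48 * a ^ 2 * b ^ 2 * c ^ 3 * d + 72 * a ^ 2 * b ^ 2 * c ^ 2 * d ^ 2 - 24 * a ^
    2 * b ^ 2 * c * d ^ 3 - 12 * a ^ 2 * b * c ^ 5 + 96 * a ^ 2 * b * c ^ 4 * d - 108 * a ^ 2 *
    b * c ^ 3 * d ^ 2 + 24 * a ^ 2 * b * c ^ 2 * d ^ 3 + 36 * a ^ 2 * c ^ 6 - 72 * a ^ 2 * c ^ 5
    * d + 36 * a ^ 2 * c ^ 4 * d ^ 2 - 24 * a * b ^ 4 * c ^ 3 + 24 * a * b ^ 4 * c ^ 2 * d + 88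
    * a * b ^ 3 * c ^ 4 - 72 * a * b ^ 3 * c ^ 3 * d - 24 * a * b ^ 3 * c ^ 2 * d ^ 2 + 8 * a *
    b ^ 3 * c * d ^ 3 - 144 * a * b ^ 2 * c ^ 5 + 96 * a * b ^ 2 * c ^ 4 * d + 72 * a * b ^ 2 *
    c ^ 3 * d ^ 2 - 24 * a * b ^ 2 * c ^ 2 * d ^ 3 + 60 * a * b * c ^ 6 - 24 * a * b * c ^ 5 * d
    - 36 * a * b * c ^ 4 * d ^ 2 - 24 * a * c ^ 7 + 24 * a * c ^ 6 * d + 24 * b ^ 4 * c ^ 4 - 24
    * b ^ 4 * c ^ 3 * d - 104 * b ^ 3 * c ^ 5 + 120 * b ^ 3 * c ^ 4 * d - 24 * b ^ 3 * c ^ 3 * d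
    ^ 2 + 8 * b ^ 3 * c ^ 2 * d ^ 3 + 144 * b ^ 2 * c ^ 6 - 144 * b ^ 2 * c ^ 5 * d - 96 * b * c
    ^ 7 + 96 * b * c ^ 6 * d + 24 * c ^ 8 - 24 * c ^ 7 * d

/-- a part of the polynomial -/
def qN1 {R : Type*} [CommRing R] (a _b c d e : R) : R :=
  a ^ 4 * e ^ 4 + 16 * a ^ 3 * c ^ 4 * e - 24 * a ^ 3 * c ^ 2 * d ^ 2 * e + 8 * a ^ 3 * c * d ^
    3 * e - 4 * a ^ 3 * c * e ^ 4 + 4 * a ^ 3 * d * e ^ 4 - 36 * a ^ 2 * c ^ 5 * e + 72 * a ^ 2
    * c ^ 4 * d * e - 36 * a ^ 2 * c ^ 3 * d ^ 2 * e + 6 * a ^ 2 * c ^ 2 * e ^ 4 - 12 * a ^ 2 *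
    c * d * e ^ 4 + 6 * a ^ 2 * d ^ 2 * e ^ 4 + 24 * a * c ^ 6 * e - 24 * a * c ^ 5 * d * e - 4
    * a * c ^ 3 * e ^ 4 + 12 * a * c ^ 2 * d * e ^ 4 - 12 * a * c * d ^ 2 * e ^ 4 + 4 * a * d ^
    3 * e ^ 4 - 24 * c ^ 7 * e + 24 * c ^ 6 * d * e + c ^ 4 * e ^ 4 - 4 * c ^ 3 * d * e ^ 4 + 6
    * c ^ 2 * d ^ 2 * e ^ 4 - 4 * c * d ^ 3 * e ^ 4 + d ^ 4 * e ^ 4

/-- a part of the polynomial -/
def qN0 {R : Type*} [CommRing R] (_a b c d e : R) : R :=
  -24 * b ^ 4 * c ^ 3 * e + 24 * b ^ 4 * c ^ 2 * d * e + b ^ 4 * e ^ 4 + 104 * b ^ 3 * c ^ 4 * e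
    - 120 * b ^ 3 * c ^ 3 * d * e + 24 * b ^ 3 * c ^ 2 * d ^ 2 * e - 16 * b ^ 3 * c * d ^ 3 * e
    + 4 * b ^ 3 * c * e ^ 4 - 4 * b ^ 3 * d * e ^ 4 - 144 * b ^ 2 * c ^ 5 * e + 144 * b ^ 2 * c
    ^ 4 * d * e + 6 * b ^ 2 * c ^ 2 * e ^ 4 - 12 * b ^ 2 * c * d * e ^ 4 + 6 * b ^ 2 * d ^ 2 * e
    ^ 4 + 96 * b * c ^ 6 * e - 96 * b * c ^ 5 * d * e + 4 * b * c ^ 3 * e ^ 4 - 12 * b * c ^ 2 *
    d * e ^ 4 + 12 * b * c * d ^ 2 * e ^ 4 - 4 * b * d ^ 3 * e ^ 4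

/-- a part of the polynomial -/
def qN3 {R : Type*} [CommRing R] (a b c _d e : R) : R :=
  -4 * a ^ 3 * b * e ^ 4 + 6 * a ^ 2 * b ^ 2 * e ^ 4 - 24 * a ^ 2 * b * c ^ 4 * e + 12 * a ^ 2 *
    b * c * e ^ 4 + 24 * a * b ^ 4 * c ^ 2 * e - 96 * a * b ^ 3 * c ^ 3 * e - 4 * a * b ^ 3 * e
    ^ 4 + 144 * a * b ^ 2 * c ^ 4 * e - 12 * a * b ^ 2 * c * e ^ 4 - 60 * a * b * c ^ 5 * e - 12
    * a * b * c ^ 2 * e ^ 4

/-- a part of the polynomial -/
def qN2 {R : Type*} [CommRing R] (a b _c d e : R) : R :=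
  -12 * a ^ 2 * b * d * e ^ 4 + 12 * a * b ^ 2 * d * e ^ 4 - 12 * a * b * d ^ 2 * e ^ 4

/-- the final polynomial -/
def qH : List (ℤ × ℕ × ℕ × ℕ × ℕ) :=
  [(-60, 5, 1, 2, 0), (60, 5, 1, 1, 1), (60, 5, 0, 3, 0), (-60, 5, 0, 2, 1), (2, 4, 4, 0, 0), (-8,
    4, 3, 1, 0), (12, 4, 2, 2, 0), (172, 4, 1, 3, 0), (-60, 4, 1, 2, 1), (-96, 4, 1, 1, 2), (-24,
    4, 1, 0, 3), (-194, 4, 0, 4, 0), (60, 4, 0, 3, 1), (120, 4, 0, 2, 2), (16, 4, 0, 1, 3), (-8,
    3, 4, 1, 0), (8, 3, 4, 0, 1), (32, 3, 3, 2, 0), (-32, 3, 3, 1, 1), (-48, 3, 2, 3, 0), (48, 3,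
    2, 2, 1), (-168, 3, 1, 4, 0), (-144, 3, 1, 3, 1), (312, 3, 1, 2, 2), (-88, 3, 1, 1, 3), (104,
    3, 1, 0, 4), (236, 3, 0, 5, 0), (72, 3, 0, 4, 1), (-324, 3, 0, 3, 2), (104, 3, 0, 2, 3),
    (-104, 3, 0, 1, 4), (-12, 2, 4, 2, 0), (12, 2, 4, 0, 2), (48, 2, 3, 3, 0), (-48, 2, 3, 1, 2),
    (-72, 2, 2, 4, 0), (-48, 2, 2, 3, 1), (144, 2, 2, 2, 2), (-24, 2, 2, 1, 3), (204, 2, 1, 5, 0),
    (216, 2, 1, 4, 1), (-264, 2, 1, 3, 2), (-264, 2, 1, 2, 3), (240, 2, 1, 1, 4), (-144, 2, 1, 0,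
    5), (-144, 2, 0, 6, 0), (-192, 2, 0, 5, 1), (156, 2, 0, 4, 2), (288, 2, 0, 3, 3), (-240, 2, 0,
    2, 4), (144, 2, 0, 1, 5), (16, 1, 4, 3, 0), (-24, 1, 4, 2, 1), (8, 1, 4, 0, 3), (-72, 1, 3, 4,
    0), (120, 1, 3, 3, 1), (-24, 1, 3, 2, 2), (-24, 1, 3, 1, 3), (96, 1, 2, 5, 0), (-192, 1, 2, 4,
    1), (72, 1, 2, 3, 2), (24, 1, 2, 2, 3), (-184, 1, 1, 6, 0), (204, 1, 1, 5, 1), (-108, 1, 1, 4,
    2), (16, 1, 1, 3, 3), (168, 1, 1, 2, 4), (-192, 1, 1, 1, 5), (96, 1, 1, 0, 6), (100, 1, 0, 7,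
    0), (-60, 1, 0, 6, 1), (72, 1, 0, 5, 2), (-40, 1, 0, 4, 3), (-168, 1, 0, 3, 4), (192, 1, 0, 2,
    5), (-96, 1, 0, 1, 6), (20, 0, 4, 3, 1), (-18, 0, 4, 2, 2), (-4, 0, 4, 1, 3), (1, 0, 4, 0, 4),
    (-8, 0, 3, 5, 0), (-56, 0, 3, 4, 1), (48, 0, 3, 3, 2), (24, 0, 3, 2, 3), (-4, 0, 3, 1, 4),
    (120, 0, 2, 5, 1), (-108, 0, 2, 4, 2), (-24, 0, 2, 3, 3), (6, 0, 2, 2, 4), (20, 0, 1, 7, 0),
    (-76, 0, 1, 6, 1), (-36, 0, 1, 5, 2), (392, 0, 1, 4, 3), (-516, 0, 1, 3, 4), (336, 0, 1, 2,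
    5), (-96, 0, 1, 1, 6), (-20, 0, 0, 8, 0), (16, 0, 0, 7, 1), (90, 0, 0, 6, 2), (-380, 0, 0, 5,
    3), (513, 0, 0, 4, 4), (-336, 0, 0, 3, 5), (96, 0, 0, 2, 6)]

/-- a polynomial in four variables given by the list of its monomials -/
def evR {R : Type*} [CommRing R] (H : List (ℤ × ℕ × ℕ × ℕ × ℕ)) (a b c d : R) : R :=
  (H.map fun t => (t.1 : R) *
    (a ^ t.2.1 * b ^ t.2.2.1 * c ^ t.2.2.2.1 * d ^ t.2.2.2.2)).sum

theorem first_eight {R : Type*} [CommRing R] (a b c d e : R) : (a - b - c + d) ^ 4 * e ^ 4 =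
    qN4 a b c d e + qN1 a b c d e + qN0 a b c d e + qN3 a b c d e + qN2 a b c d e + 24 * (a * b
      * c * d * e ^ 4 - (a - c) * (e - c) * (-c) * (d - c) * (b - c) ^ 4) + 36 * (a * b * c ^ 3
      * d ^ 2 * e - (-a) * (b - a) * (-c) ^ 3 * (d - c) ^ 2 * (e - a - c)) - 24 * (a * b ^ 2 * c
      ^ 3 * d * e - (-a) * (b - a) ^ 2 * (-c) ^ 3 * (d - c) * (e - a - c)) + 8 * (b ^ 3 * c * d
      ^ 3 * e - (b - a) ^ 3 * (-c) * (d - c) ^ 3 * (e - a - c)) - 24 * (a * b ^ 4 * c * d * e -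
      c * d ^ 4 * a * b * e) + 24 * (a * b * c ^ 4 * d * e - b * a * d ^ 4 * c * e) + 96 * (a *
      b ^ 3 * c ^ 2 * d * e - d * c ^ 3 * b ^ 2 * a * e) - 24 * (a ^ 2 * b * c * d ^ 3 * e - b ^
      2 * a * d * c ^ 3 * e) - 24 * (a ^ 2 * b * c ^ 3 * d * e - b ^ 2 * a * d ^ 3 * c * e) + 72
      * (a ^ 2 * b * c ^ 2 * d ^ 2 * e - b ^ 2 * a * d ^ 2 * c ^ 2 * e) := by
  simp only [qN4, qN1, qN0, qN3, qN2]
  ring

theorem second_eight {R : Type*} [CommRing R] (a b c d e : R) : qN4 a b c d e +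
    qN1 (a - c) (e - c) (-c) (d - c) (b - c) + qN0 (e - c) (a - c) (d - c) (-c) (b - c) +
      qN3 (-c) (d - c) (a - c) (e - c) (b - c) + qN2 (d - c) (-c) (e - c) (a - c) (b - c) =
        evR qH a b c d := by
  simp only [qN4, qN1, qN0, qN3, qN2, evR, qH, List.map_cons, List.map_nil, List.sum_cons,
    List.sum_nil, pow_zero, pow_one, mul_one, one_mul, Int.cast_one, Int.cast_neg, Int.cast_ofNat]
  ring

/-- the coefficients of the sums of weight eight -/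
def w8 (i j : ℕ) : ℤ :=
  if i = 6 ∧ j = 2 ∨ i = 2 ∧ j = 6 then -30 else if i = 5 ∧ j = 3 ∨ i = 3 ∧ j = 5 then -45 else
    if i = 4 ∧ j = 4 then -48 else 0

/-- the coefficients of the sums of weight three -/
def w3 (i j : ℕ) : ℤ := if i = 2 ∧ j = 1 ∨ i = 1 ∧ j = 2 then 1 else 0

/-- the coefficients of the sums of weight five -/
def w5 (i j : ℕ) : ℤ :=
  if i = 4 ∧ j = 1 ∨ i = 1 ∧ j = 4 ∨ i = 3 ∧ j = 2 ∨ i = 2 ∧ j = 3 then 1 else 0

/-- the coefficients of the double sums of weight eight -/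
def v8 (i j k m : ℕ) : ℤ :=
  (if i = 0 ∧ j = 0 then -w8 k m else if k = 0 ∧ m = 0 then -w8 i j else
    w3 i j * w5 k m + w5 i j * w3 k m) - w8 (i + k) (j + m)

theorem qH_value : (qH.map fun t => t.1 * v8 t.2.1 t.2.2.1 t.2.2.2.1 t.2.2.2.2).sum = 60 := by
  decide +kernel

theorem qH_degree : ∀ t ∈ qH, t.2.1 + t.2.2.1 + t.2.2.2.1 + t.2.2.2.2 = 8 := by
  decide +kernel

section

variable {K : Type*} [Field K] [Fintype K] [DecidableEq K] {r : ℕ} {l : K → ZMod r}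

theorem lo_sum {v : ℕ → ℕ → ℕ → ℕ → ℤ} {X : ZMod r} (h : ∀ i j k m, i + j + k + m = 8 →
    lo l (fun a b c d _ => a ^ i * b ^ j * c ^ k * d ^ m) = (v i j k m : ZMod r) * X)
    (H : List (ℤ × ℕ × ℕ × ℕ × ℕ))
    (hd : ∀ t ∈ H, t.2.1 + t.2.2.1 + t.2.2.2.1 + t.2.2.2.2 = 8) :
    lo l (fun a b c d _ => evR H a b c d) =
      ((H.map fun t => t.1 * v t.2.1 t.2.2.1 t.2.2.2.1 t.2.2.2.2).sum : ℤ) * X := by
  induction H with
  | nil => simp [evR, lo]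
  | cons t H ih =>
    have h1 : lo l (fun a b c d _ => evR (t :: H) a b c d) =
        (t.1 : ZMod r) * lo l (fun a b c d _ =>
          a ^ t.2.1 * b ^ t.2.2.1 * c ^ t.2.2.2.1 * d ^ t.2.2.2.2) +
          lo l (fun a b c d _ => evR H a b c d) := by
      simp only [lo, evR, List.map_cons, List.sum_cons, sum_add_distrib, mul_sum]
    rw [h1, ih fun t' ht' => hd t' (List.mem_cons_of_mem _ ht'), h _ _ _ _ (hd t (by simp)),
      List.map_cons, List.sum_cons]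
    push_cast
    ring

variable [hr : Fact r.Prime] (hr2 : r ≠ 2) (hl : IsLog l)

include hr2 hl

theorem al44_of_value {X : ZMod r} (h : ∀ i j k m, i + j + k + m = 8 →
    lo l (fun a b c d _ => a ^ i * b ^ j * c ^ k * d ^ m) = (v8 i j k m : ZMod r) * X) :
    al l 4 4 = 60 * X := by
  have h0 : al l 4 4 = lo l (fun a b c d e => (a - b - c + d) ^ 4 * e ^ 4) := by
    rw [al, lo]
    refine sum_congr rfl fun P _ => ?_
    simp only [lam, dif]
    congr 2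
    ring
  have key : lo l (fun a b c d e => (a - b - c + d) ^ 4 * e ^ 4) =
      lo l qN4 + lo l qN1 + lo l qN0 + lo l qN3 + lo l qN2 + 24 * (lo l (fun a b c d e => a * b
        * c * d * e ^ 4) - lo l (fun a b c d e => (a - c) * (e - c) * (-c) * (d - c) * (b - c) ^
        4)) + 36 * (lo l (fun a b c d e => a * b * c ^ 3 * d ^ 2 * e) - lo l (fun a b c d e =>
        (-a) * (b - a) * (-c) ^ 3 * (d - c) ^ 2 * (e - a - c))) - 24 * (lo l (fun a b c d e => a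
        * b ^ 2 * c ^ 3 * d * e) - lo l (fun a b c d e => (-a) * (b - a) ^ 2 * (-c) ^ 3 * (d -
        c) * (e - a - c))) + 8 * (lo l (fun a b c d e => b ^ 3 * c * d ^ 3 * e) - lo l (fun a b
        c d e => (b - a) ^ 3 * (-c) * (d - c) ^ 3 * (e - a - c))) - 24 * (lo l (fun a b c d e =>
        a * b ^ 4 * c * d * e) - lo l (fun a b c d e => c * d ^ 4 * a * b * e)) + 24 * (lo l
        (fun a b c d e => a * b * c ^ 4 * d * e) - lo l (fun a b c d e => b * a * d ^ 4 * c *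
        e)) + 96 * (lo l (fun a b c d e => a * b ^ 3 * c ^ 2 * d * e) - lo l (fun a b c d e => d
        * c ^ 3 * b ^ 2 * a * e)) - 24 * (lo l (fun a b c d e => a ^ 2 * b * c * d ^ 3 * e) - lo
        l (fun a b c d e => b ^ 2 * a * d * c ^ 3 * e)) - 24 * (lo l (fun a b c d e => a ^ 2 * b
        * c ^ 3 * d * e) - lo l (fun a b c d e => b ^ 2 * a * d ^ 3 * c * e)) + 72 * (lo l (fun
        a b c d e => a ^ 2 * b * c ^ 2 * d ^ 2 * e) - lo l (fun a b c d e => b ^ 2 * a * d ^ 2 *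
        c ^ 2 * e)) := by
    simp only [lo, first_eight, sum_add_distrib, sum_sub_distrib, ← mul_sum]
  have r0 : lo l (fun a b c d e => a * b * c * d * e ^ 4) = lo l (fun a b c d e => (a - c) *
      (e - c) * (-c) * (d - c) * (b - c) ^ 4) := by
    exact lo_oneY hr2 hl _
  have r1 : lo l (fun a b c d e => a * b * c ^ 3 * d ^ 2 * e) = lo l (fun a b c d e => (-a) *
      (b - a) * (-c) ^ 3 * (d - c) ^ 2 * (e - a - c)) := by
    exact lo_zeroInf hr2 hl _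
  have r2 : lo l (fun a b c d e => a * b ^ 2 * c ^ 3 * d * e) = lo l (fun a b c d e => (-a) *
      (b - a) ^ 2 * (-c) ^ 3 * (d - c) * (e - a - c)) := by
    exact lo_zeroInf hr2 hl _
  have r3 : lo l (fun a b c d e => b ^ 3 * c * d ^ 3 * e) = lo l (fun a b c d e => (b - a) ^ 3
      * (-c) * (d - c) ^ 3 * (e - a - c)) := by
    exact lo_zeroInf hr2 hl _
  have r4 : lo l (fun a b c d e => a * b ^ 4 * c * d * e) = lo l (fun a b c d e => c * d ^ 4 *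
      a * b * e) := by
    exact lo_swap hr2 hl _
  have r5 : lo l (fun a b c d e => a * b * c ^ 4 * d * e) = lo l (fun a b c d e => b * a * d ^
      4 * c * e) := by
    exact lo_zeroOne hr2 hl _
  have r6 : lo l (fun a b c d e => a * b ^ 3 * c ^ 2 * d * e) = lo l (fun a b c d e => d * c ^
      3 * b ^ 2 * a * e) := by
    rw [lo_swap hr2 hl, lo_zeroOne hr2 hl]
  have r7 : lo l (fun a b c d e => a ^ 2 * b * c * d ^ 3 * e) = lo l (fun a b c d e => b ^ 2 *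
      a * d * c ^ 3 * e) := by
    exact lo_zeroOne hr2 hl _
  have r8 : lo l (fun a b c d e => a ^ 2 * b * c ^ 3 * d * e) = lo l (fun a b c d e => b ^ 2 *
      a * d ^ 3 * c * e) := by
    exact lo_zeroOne hr2 hl _
  have r9 : lo l (fun a b c d e => a ^ 2 * b * c ^ 2 * d ^ 2 * e) = lo l (fun a b c d e => b ^
      2 * a * d ^ 2 * c ^ 2 * e) := by
    exact lo_zeroOne hr2 hl _
  have s1 : lo l qN1 = lo l (fun a b c d e => qN1 (a - c) (e - c) (-c) (d - c) (b - c)) :=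
    lo_oneY hr2 hl _
  have s0 : lo l qN0 = lo l (fun a b c d e => qN0 (e - c) (a - c) (d - c) (-c) (b - c)) := by
    rw [lo_zeroOne hr2 hl, lo_oneY hr2 hl]
  have s3 : lo l qN3 = lo l (fun a b c d e => qN3 (-c) (d - c) (a - c) (e - c) (b - c)) := by
    rw [lo_swap hr2 hl, lo_oneY hr2 hl]
  have s2 : lo l qN2 = lo l (fun a b c d e => qN2 (d - c) (-c) (e - c) (a - c) (b - c)) := by
    rw [lo_swap hr2 hl, lo_zeroOne hr2 hl, lo_oneY hr2 hl]
  have e2 : lo l qN4 + lo l (fun a b c d e => qN1 (a - c) (e - c) (-c) (d - c) (b - c)) +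
      lo l (fun a b c d e => qN0 (e - c) (a - c) (d - c) (-c) (b - c)) +
      lo l (fun a b c d e => qN3 (-c) (d - c) (a - c) (e - c) (b - c)) +
      lo l (fun a b c d e => qN2 (d - c) (-c) (e - c) (a - c) (b - c)) =
        lo l (fun a b c d _ => evR qH a b c d) := by
    simp only [lo, ← sum_add_distrib]
    exact sum_congr rfl fun P _ => second_eight _ _ _ _ _
  have hlist := lo_sum (K := K) (l := l) h qH qH_degree
  rw [qH_value] at hlist
  push_cast at hlist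
  rw [h0, key]
  linear_combination s1 + s0 + s3 + s2 + e2 + hlist + 24 * r0 + 36 * r1 - 24 * r2 + 8 * r3 - 24
    * r4 + 24 * r5 + 96 * r6 - 24 * r7 - 24 * r8 + 72 * r9

omit hr hr2 in
theorem bz_pos' {a b : ℕ} (ha : a ≠ 0) (hb : b ≠ 0) : bz l a b = bs l a b := by
  rw [bz, bs]
  refine sum_subset (subset_univ _) fun x _ hx => ?_
  simp only [mem_erase, mem_univ, and_true, not_and_or, not_not] at hx
  rcases hx with rfl | rfl
  · rw [sub_self, hl.zero, zero_pow hb, mul_zero]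
  · rw [hl.zero, zero_pow ha, zero_mul]

omit hr2 in
theorem bz_left' {a : ℕ} (ha : a ≠ 0) (har : a + 1 < r) : bz l a 0 = 0 := by
  rw [bz]
  simp only [pow_zero, mul_one]
  rw [← sum_pow_log hl a (Nat.pos_of_ne_zero ha) har]
  refine sum_subset (subset_univ _) fun x _ hx => ?_
  simp only [mem_erase, mem_univ, and_true, not_and_or, not_not] at hx
  rcases hx with rfl | rfl
  · rw [hl.one, zero_pow ha]
  · rw [hl.zero, zero_pow ha]

omit hr2 in
theorem bz_right' {a : ℕ} (ha : a ≠ 0) (har : a + 1 < r) : bz l 0 a = 0 := by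
  rw [← sum_pow_log' hl (Nat.pos_of_ne_zero ha) har, bz]
  simp only [pow_zero, one_mul]
  refine sum_subset (subset_univ _) fun x _ hx => ?_
  simp only [mem_erase, mem_univ, and_true, not_and_or, not_not] at hx
  rcases hx with rfl | rfl
  · rw [sub_self, hl.zero, zero_pow ha]
  · rw [sub_zero, hl.one, zero_pow ha]

omit hr2 hl in
theorem bz_zero' (hK : (Fintype.card K : ZMod r) = 1) : bz l 0 0 = -1 := by
  rw [bz]
  simp only [pow_zero, mul_one, sum_const, nsmul_eq_mul]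
  have h1 : ((univ.erase (0 : K)).erase 1).card + 2 = Fintype.card K := by
    rw [card_erase_of_mem (by simp), card_erase_of_mem (mem_univ _), card_univ]
    have h2 := Fintype.one_lt_card (α := K)
    omega
  have h3 : ((((univ.erase (0 : K)).erase 1).card + 2 : ℕ) : ZMod r) = 1 := by
    rw [h1, hK]
  push_cast at h3
  linear_combination h3

/-- the mixed moment of degree four and four -/
theorem al44_eight (hr9 : 9 < r) (hK : (Fintype.card K : ZMod r) = 1)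
    (h62 : bs l 6 2 = -30 * (bs l 2 1 * bs l 4 1)) (h53 : bs l 5 3 = -45 * (bs l 2 1 * bs l 4 1))
    (h44 : bs l 4 4 = -48 * (bs l 2 1 * bs l 4 1)) (h71 : bs l 7 1 = 0)
    (h32 : bs l 3 2 = bs l 4 1) : al l 4 4 = 60 * (bs l 2 1 * bs l 4 1) := by
  set B := bs l 2 1 with hB
  set C := bs l 4 1 with hC
  have z0 : bz l 0 0 = -1 := bz_zero' hK
  have zl : ∀ a, a ≠ 0 → a < 9 → bz l a 0 = 0 := fun a ha h => bz_left' hl ha (by omega)
  have zr : ∀ a, a ≠ 0 → a < 9 → bz l 0 a = 0 := fun a ha h => bz_right' hl ha (by omega)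
  -- the weights one, two and four
  have hlow : ∀ i j, i + j = 1 ∨ i + j = 2 ∨ i + j = 4 → bz l i j = 0 := by
    intro i j h
    rcases Nat.eq_zero_or_pos i with hi | hi
    · subst hi
      exact zr j (by omega) (by omega)
    rcases Nat.eq_zero_or_pos j with hj | hj
    · subst hj
      exact zl i (by omega) (by omega)
    rw [bz_pos' hl hi.ne' hj.ne']
    have h3 : i ≤ 3 := by omega
    have h3' : j ≤ 3 := by omega
    interval_cases i <;> interval_cases j <;> first | omega | skip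
    · exact bs11 hr2 hl (by omega)
    · rw [bs_comm]
      exact bs31 hr2 hl (by omega)
    · exact bs22 hr2 hl (by omega)
    · exact bs31 hr2 hl (by omega)
  have h3w : ∀ i j, i + j = 3 → bz l i j = (w3 i j : ZMod r) * B := by
    intro i j h
    have h3 : i ≤ 3 := by omega
    obtain rfl : j = 3 - i := by omega
    interval_cases i
    · rw [zr 3 (by omega) (by omega)]
      simp [w3]
    · rw [bz_pos' hl (by omega) (by omega), bs_comm]
      simp [w3, hB]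
    · rw [bz_pos' hl (by omega) (by omega)]
      simp [w3, hB]
    · rw [zl 3 (by omega) (by omega)]
      simp [w3]
  have h5w : ∀ i j, i + j = 5 → bz l i j = (w5 i j : ZMod r) * C := by
    intro i j h
    have h3 : i ≤ 5 := by omega
    obtain rfl : j = 5 - i := by omega
    interval_cases i
    · rw [zr 5 (by omega) (by omega)]
      simp [w5]
    · rw [bz_pos' hl (by omega) (by omega), bs_comm]
      simp [w5, hC]
    · rw [bz_pos' hl (by omega) (by omega), bs_comm, h32]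
      simp [w5]
    · rw [bz_pos' hl (by omega) (by omega), h32]
      simp [w5]
    · rw [bz_pos' hl (by omega) (by omega)]
      simp [w5, hC]
    · rw [zl 5 (by omega) (by omega)]
      simp [w5]
  have h8w : ∀ i j, i + j = 8 → bz l i j = (w8 i j : ZMod r) * (B * C) := by
    intro i j h
    have h3 : i ≤ 8 := by omega
    obtain rfl : j = 8 - i := by omega
    interval_cases i
    · rw [zr 8 (by omega) (by omega)]
      simp [w8]
    · rw [bz_pos' hl (by omega) (by omega), bs_comm, h71]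
      simp [w8]
    · rw [bz_pos' hl (by omega) (by omega), bs_comm, h62]
      simp [w8]
    · rw [bz_pos' hl (by omega) (by omega), bs_comm, h53]
      simp [w8]
    · rw [bz_pos' hl (by omega) (by omega), h44]
      simp [w8]
    · rw [bz_pos' hl (by omega) (by omega), h53]
      simp [w8]
    · rw [bz_pos' hl (by omega) (by omega), h62]
      simp [w8]
    · rw [bz_pos' hl (by omega) (by omega), h71]
      simp [w8]
    · rw [zl 8 (by omega) (by omega)]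
      simp [w8]
  have n3 : ∀ i j, i + j ≠ 3 → w3 i j = 0 := by
    intro i j h
    rw [w3, if_neg]
    omega
  have n5 : ∀ i j, i + j ≠ 5 → w5 i j = 0 := by
    intro i j h
    rw [w5, if_neg]
    omega
  refine al44_of_value hr2 hl fun i j k m h => ?_
  rw [lo_four, h8w (i + k) (j + m) (by omega), v8]
  have hn : i + j ≤ 8 := by omega
  have hcase : i + j = 0 ∨ (i + j = 1 ∨ i + j = 2 ∨ i + j = 4) ∨ i + j = 3 ∨ i + j = 5 ∨
      (i + j = 6 ∨ i + j = 7) ∨ i + j = 8 := by omega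
  rcases hcase with h1 | h1 | h1 | h1 | h1 | h1
  · rw [if_pos (by omega)]
    obtain rfl : i = 0 := by omega
    obtain rfl : j = 0 := by omega
    rw [z0, h8w k m (by omega)]
    push_cast
    ring
  · rw [if_neg (by omega), if_neg (by omega), hlow i j h1, n3 i j (by omega), n5 i j (by omega)]
    push_cast
    ring
  · rw [if_neg (by omega), if_neg (by omega), h3w i j h1, h5w k m (by omega), n5 i j (by omega)]
    push_cast
    ring
  · rw [if_neg (by omega), if_neg (by omega), h5w i j h1, h3w k m (by omega), n3 i j (by omega)]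
    push_cast
    ring
  · rw [if_neg (by omega), if_neg (by omega), hlow k m (by omega), n3 k m (by omega),
      n5 k m (by omega)]
    push_cast
    ring
  · rw [if_neg (by omega), if_pos (by omega)]
    obtain rfl : k = 0 := by omega
    obtain rfl : m = 0 := by omega
    rw [z0, h8w i j (by omega)]
    push_cast
    ring

end

end Pool.Agent.Helper44.KM
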