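import Pool.Agent.Helper79.KM.Pair

/-!
# Sums of seventh roots of unity which are integers
-/

open Polynomial Finset

namespace Pool.Agent.Helper44.KM

open Pool.Agent.Helper79.KM

theorem six_pow (x : ZMod 7) : x ^ 6 = if x = 0 then 0 else 1 := by
  revert x
  decide

/-- a sum of seventh roots of unity which is an integer -/
theorem count_seven {L : Type*} [Field L] [CharZero L] {z : L} (hz : IsPrimitiveRoot z 7)
    {ι : Type*} (s : Finset ι) (f : ι → ZMod 7) (C₀ : ℤ)
    (h : ∑ i ∈ s, z ^ (f i).val = C₀) :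
    ∃ a : ℤ, (s.card : ℤ) = C₀ + 7 * a ∧ ∑ i ∈ s, f i ^ 6 = -(a : ZMod 7) := by
  classical
  have hp : Nat.Prime 7 := by norm_num
  have hF : Fact (Nat.Prime 7) := ⟨hp⟩
  set G : ℤ[X] := ∑ i ∈ s, X ^ (f i).val - C C₀ with hG
  have h1 : aeval z G = 0 := by
    rw [hG, map_sub, map_sum, aeval_C, algebraMap_int_eq, eq_intCast, ← h, sub_eq_zero]
    exact sum_congr rfl fun i _ => by rw [map_pow, aeval_X]
  have h2 : cyclotomic 7 ℤ ∣ G := by
    rw [cyclotomic_eq_minpoly hz (by norm_num)]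
    exact minpoly.isIntegrallyClosed_dvd (hz.isIntegral (by norm_num)) h1
  have hdeg : G.natDegree ≤ 6 := by
    rw [hG]
    refine (natDegree_sub_le _ _).trans (max_le ?_ ?_)
    · refine natDegree_sum_le_of_forall_le _ _ fun i _ => ?_
      rw [natDegree_X_pow]
      have := ZMod.val_lt (f i)
      omega
    · rw [natDegree_C]
      omega
  obtain ⟨H, hH⟩ := h2
  have hH0 : ∃ a : ℤ, H = C a := by
    by_cases h0 : H = 0
    · exact ⟨0, by rw [h0, C_0]⟩
    · refine ⟨H.coeff 0, eq_C_of_natDegree_eq_zero ?_⟩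
      have h3 : G.natDegree = (cyclotomic 7 ℤ).natDegree + H.natDegree := by
        rw [hH, natDegree_mul (cyclotomic_ne_zero 7 ℤ) h0]
      rw [natDegree_cyclotomic, Nat.totient_prime hp] at h3
      omega
  obtain ⟨a, ha⟩ := hH0
  rw [ha] at hH
  have e1 : (s.card : ℤ) - C₀ = 7 * a := by
    have h3 := congrArg (eval 1) hH
    rw [eval_mul, eval_one_cyclotomic_prime, eval_C, hG, eval_sub, eval_finsetSum, eval_C] at h3
    simp only [eval_pow, eval_X, one_pow, sum_const, nsmul_eq_mul, mul_one] at h3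
    exact_mod_cast h3
  have e2 : ((s.filter fun i => f i = 0).card : ℤ) - C₀ = a := by
    have h3 := congrArg (eval 0) hH
    have h4 : eval 0 (cyclotomic 7 ℤ) = 1 := by
      rw [cyclotomic_prime, eval_geom_sum]
      simp
    rw [eval_mul, h4, eval_C, hG, eval_sub, eval_finsetSum, eval_C, one_mul] at h3
    rw [← h3, card_filter]
    push_cast
    congr 1
    refine sum_congr rfl fun i _ => ?_
    rw [eval_pow, eval_X]
    by_cases hi : f i = 0
    · rw [if_pos hi, hi, ZMod.val_zero, pow_zero]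
    · rw [if_neg hi, zero_pow]
      intro h5
      exact hi ((ZMod.val_eq_zero _).1 h5)
  refine ⟨a, by linear_combination e1, ?_⟩
  have e3 : ∑ i ∈ s, f i ^ 6 = ((s.card : ℤ) : ZMod 7) -
      (((s.filter fun i => f i = 0).card : ℤ) : ZMod 7) := by
    rw [card_filter, card_eq_sum_ones]
    push_cast
    rw [← sum_sub_distrib]
    refine sum_congr rfl fun i _ => ?_
    rw [six_pow]
    split_ifs <;> ring
  have e4 : (s.card : ℤ) = C₀ + 7 * a := by linear_combination e1
  have e5 : ((s.filter fun i => f i = 0).card : ℤ) = C₀ + a := by linear_combination e2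
  have h7 : (7 : ZMod 7) = 0 := by
    have := ZMod.natCast_self 7
    exact_mod_cast this
  rw [e3, e4, e5]
  push_cast
  linear_combination (a : ZMod 7) * h7

/-- the same for roots of unity of order a power of seven -/
theorem count_pow {L : Type*} [Field L] [CharZero L] [hF : Fact (Nat.Prime 7)] {j : ℕ}
    (hj : 0 < j) {z : L} (hz : IsPrimitiveRoot z (7 ^ j)) {ι : Type*} (s : Finset ι)
    (f : ι → ZMod (7 ^ j)) (C₀ : ℤ) (h : ∑ i ∈ s, z ^ (f i).val = C₀) :
    ∃ a : ℤ, (j = 1 → (s.card : ℤ) = C₀ + 7 * a) ∧ (j ≠ 1 → a = 0) ∧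
      ∑ i ∈ s, red 7 j hj (f i) ^ 6 = -(a : ZMod 7) := by
  by_cases hj1 : j = 1
  · subst hj1
    obtain ⟨a, h1, h2⟩ := count_seven (z := z) (by simpa using hz) s (fun i => red 7 1 hj (f i)) C₀
      (by
        rw [← h]
        refine sum_congr rfl fun i _ => ?_
        congr 1
        have h3 := red_val hj (f i)
        have h4 : (f i).val < 7 := by
          have h5 := ZMod.val_lt (f i)
          have h6 : 7 ^ 1 = 7 := pow_one 7
          omega
        rw [← h3, ZMod.val_natCast, Nat.mod_eq_of_lt h4])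
    exact ⟨a, fun _ => h1, fun h' => absurd rfl h', h2⟩
  · refine ⟨0, fun h' => absurd h' hj1, fun _ => rfl, ?_⟩
    obtain ⟨j', rfl⟩ : ∃ j', j = j' + 2 := ⟨j - 2, by omega⟩
    have hphi : 6 < 7 ^ (j' + 2) - 7 ^ (j' + 2 - 1) := by
      have e : j' + 2 - 1 = j' + 1 := by omega
      rw [e, pow_succ 7 (j' + 1)]
      have h1 : 7 ≤ 7 ^ (j' + 1) := by
        rw [pow_succ]
        have : 1 ≤ 7 ^ j' := Nat.one_le_pow _ _ (by norm_num)
        omega
      omega
    have h1 := moment_const hj hz s (fun _ => 1) (fun i => (f i).val) C₀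
      (by
        rw [← h]
        exact sum_congr rfl fun i _ => by rw [Int.cast_one, one_mul]) (k := 6) (by omega) hphi
    rw [Int.cast_zero, neg_zero, ← h1]
    exact sum_congr rfl fun i _ => by rw [Int.cast_one, one_mul, red_val hj]

/-- the same for a product -/
theorem count_pair {L : Type*} [Field L] [CharZero L] [hF : Fact (Nat.Prime 7)] {j : ℕ}
    (hj : 0 < j) {z : L} (hz : IsPrimitiveRoot z (7 ^ j)) {ι : Type*} (s : Finset ι)
    (e : ι → ZMod (7 ^ j)) (C₀ : ℤ)
    (h : (∑ i ∈ s, z ^ (e i).val) * (∑ i ∈ s, z ^ (-e i).val) = C₀) :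
    ∃ a : ℤ, (j = 1 → (s.card : ℤ) ^ 2 = C₀ + 7 * a) ∧ (j ≠ 1 → a = 0) ∧
      ∑ i ∈ s, ∑ i' ∈ s, (red 7 j hj (e i) - red 7 j hj (e i')) ^ 6 = -(a : ZMod 7) := by
  obtain ⟨a, h1, h2, h3⟩ := count_pow hj hz (s ×ˢ s) (fun x => e x.1 + -e x.2) C₀
    (by
      rw [← h, sum_mul_sum, sum_product]
      refine sum_congr rfl fun i _ => sum_congr rfl fun i' _ => ?_
      rw [pow_val_add hz.pow_eq_one])
  refine ⟨a, fun hj1 => ?_, h2, ?_⟩
  · rw [← h1 hj1, card_product]
    push_cast
    ring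
  · rw [← h3, sum_product]
    refine sum_congr rfl fun i _ => sum_congr rfl fun i' _ => ?_
    rw [map_add, map_neg, sub_eq_add_neg]

end Pool.Agent.Helper44.KM
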