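import Pool.Agent.Helper79.KM.Cnt
import Pool.Agent.Helper44.KM.FiveCount

/-!
# Cyclotomic numbers of prime order
-/

open Finset

namespace Pool.Agent.Helper44.KM

open Pool.Agent.Helper79.KM

section

variable {K : Type*} [Field K] [Fintype K] [DecidableEq K] {r : ℕ} {l : K → ZMod r}

/-- the cyclotomic numbers -/
def cy (l : K → ZMod r) (i j : ZMod r) : ℤ :=
  ((rest K).filter fun x => l x = i ∧ l (1 - x) = j).card

theorem cy_comm (i j : ZMod r) : cy l i j = cy l j i := by
  rw [cy, cy]
  congr 1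
  refine card_bij' (fun x _ => 1 - x) (fun x _ => 1 - x) ?_ ?_ ?_ ?_
  · intro x hx
    rw [mem_filter, mem_rest] at hx ⊢
    refine ⟨⟨fun h => hx.1.2 (by linear_combination -h), sub_ne_zero.2 (Ne.symm hx.1.1)⟩, ?_, ?_⟩
    · exact hx.2.2
    · rw [sub_sub_cancel]
      exact hx.2.1
  · intro x hx
    rw [mem_filter, mem_rest] at hx ⊢
    refine ⟨⟨fun h => hx.1.2 (by linear_combination -h), sub_ne_zero.2 (Ne.symm hx.1.1)⟩, ?_, ?_⟩
    · exact hx.2.2
    · rw [sub_sub_cancel]
      exact hx.2.1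
  · intro x _
    exact sub_sub_cancel 1 x
  · intro x _
    exact sub_sub_cancel 1 x

theorem cy_inv [hr : Fact r.Prime] (hr2 : r ≠ 2) (hl : IsLog l) (i j : ZMod r) :
    cy l i j = cy l (-i) (j - i) := by
  have key : ∀ x : K, x ≠ 1 → x ≠ 0 → l (1 - x⁻¹) = l (1 - x) - l x := by
    intro x h1 h0
    have e : 1 - x⁻¹ = (x - 1) / x := by field_simp
    rw [e, hl.div (sub_ne_zero.2 h1) h0, hl.sub_comm hr2]
  rw [cy, cy]
  congr 1
  refine card_bij' (fun x _ => x⁻¹) (fun x _ => x⁻¹) ?_ ?_ ?_ ?_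
  · intro x hx
    rw [mem_filter, mem_rest] at hx ⊢
    obtain ⟨⟨h1, h0⟩, hi, hj⟩ := hx
    refine ⟨⟨fun h => h1 (inv_eq_one.1 h), inv_ne_zero h0⟩, ?_, ?_⟩
    · rw [hl.inv, hi]
    · rw [key x h1 h0, hi, hj]
  · intro x hx
    rw [mem_filter, mem_rest] at hx ⊢
    obtain ⟨⟨h1, h0⟩, hi, hj⟩ := hx
    refine ⟨⟨fun h => h1 (inv_eq_one.1 h), inv_ne_zero h0⟩, ?_, ?_⟩
    · rw [hl.inv, hi, neg_neg]
    · rw [key x h1 h0, hi, hj]
      ring
  · intro x _
    exact inv_inv x
  · intro x _
    exact inv_inv x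

/-- sums over the elements different from zero and one -/
theorem sum_cy [NeZero r] {M : Type*} [CommRing M] (G : ZMod r → ZMod r → M) :
    ∑ x ∈ rest K, G (l x) (l (1 - x)) = ∑ i, ∑ j, (cy l i j : M) * G i j := by
  rw [← sum_fiberwise' (rest K) (fun x => (l x, l (1 - x))) (fun y => G y.1 y.2),
    Fintype.sum_prod_type]
  refine sum_congr rfl fun i _ => sum_congr rfl fun j _ => ?_
  rw [sum_const, nsmul_eq_mul, cy, Int.cast_natCast]
  congr 2
  refine congrArg _ (filter_congr fun x _ => ?_)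
  rw [Prod.mk.injEq]

/-- the sums of the rows -/
theorem row_cy [hr : Fact r.Prime] (hl : IsLog l) (h0 : ∃ x, l x ≠ 0) {w : ℕ}
    (hw : Fintype.card K = r * w + 1) (i : ZMod r) :
    ∑ j, cy l i j = if i = 0 then (w : ℤ) - 1 else w := by
  have : NeZero r := ⟨hr.out.ne_zero⟩
  have h1mem : (1 : K) ∈ univ.erase (0 : K) := by
    rw [mem_erase]
    exact ⟨one_ne_zero, mem_univ _⟩
  have h1 : ∑ j, cy l i j = ∑ x ∈ rest K, if l x = i then (1 : ℤ) else 0 := by
    have h2 := sum_cy (K := K) (l := l) (M := ℤ) (fun i' _ => if i' = i then (1 : ℤ) else 0)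
    refine Eq.trans ?_ h2.symm
    symm
    refine (sum_eq_single (M := ℤ) i ?_ ?_).trans ?_
    · intro i' _ hi'
      refine sum_eq_zero fun j _ => ?_
      rw [if_neg hi', mul_zero]
    · intro h
      exact absurd (mem_univ _) h
    · refine sum_congr rfl fun j _ => ?_
      rw [if_pos rfl, mul_one, Int.cast_id]
  have h2 := add_sum_erase (univ.erase (0 : K)) (fun x => if l x = i then (1 : ℤ) else 0) h1mem
  have h3 : ∑ x ∈ univ.erase (0 : K), (if l x = i then (1 : ℤ) else 0) = w := by
    rw [← fiber_card hl h0 hw i, card_filter]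
    push_cast
    rfl
  rw [h1, rest]
  rw [h3, hl.one] at h2
  by_cases hi : i = 0
  · rw [if_pos hi]
    rw [if_pos hi.symm] at h2
    linear_combination h2
  · rw [if_neg hi]
    rw [if_neg (Ne.symm hi)] at h2
    linear_combination h2

/-- the number of elements with a given value of `l x + l (1 - x)` -/
def mv (l : K → ZMod r) (k : ZMod r) : ℤ :=
  ((rest K).filter fun x => l x + l (1 - x) = k).card

theorem mv_eq [NeZero r] (k : ZMod r) : mv l k = ∑ i, cy l i (k - i) := by
  have h1 : mv l k = ∑ x ∈ rest K, if l x + l (1 - x) = k then (1 : ℤ) else 0 := by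
    rw [mv, card_filter]
    push_cast
    rfl
  rw [h1, sum_cy (l := l) (fun i j => if i + j = k then (1 : ℤ) else 0)]
  refine sum_congr rfl fun i _ => ?_
  rw [sum_eq_single (k - i)]
  · rw [if_pos (by ring), mul_one, Int.cast_id]
  · intro j _ hj
    rw [if_neg, mul_zero]
    intro h
    apply hj
    linear_combination h
  · intro h
    exact absurd (mem_univ _) h

/-- the relations given by the absolute value of the Jacobi sum -/
theorem mv_rel [hr : Fact r.Prime] (hr2 : r ≠ 2) (hl : IsLog l) (h0 : ∃ x, l x ≠ 0)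
    {j : ZMod r} (hj : j ≠ 0) :
    ∑ k, mv l k * mv l k = ∑ k, mv l (k + j) * mv l k + Fintype.card K := by
  have : NeZero r := ⟨hr.out.ne_zero⟩
  have key : ∀ j : ZMod r, ((((rest K) ×ˢ (rest K)).filter fun P =>
      (l P.1 + l (1 - P.1)) - (l P.2 + l (1 - P.2)) = j).card : ℤ) =
        ∑ k, mv l (k + j) * mv l k := by
    intro j
    have h1 : ((((rest K) ×ˢ (rest K)).filter fun P =>
        (l P.1 + l (1 - P.1)) - (l P.2 + l (1 - P.2)) = j).card : ℤ) =
          ∑ y ∈ rest K, mv l ((l y + l (1 - y)) + j) := by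
      rw [card_filter, sum_product_right]
      push_cast
      refine sum_congr rfl fun y _ => ?_
      rw [mv, card_filter]
      push_cast
      refine sum_congr rfl fun x _ => ?_
      congr 1
      rw [eq_iff_iff]
      constructor
      · intro h
        linear_combination h
      · intro h
        linear_combination h
    rw [h1, ← sum_fiberwise' (rest K) (fun x => l x + l (1 - x)) (fun k => mv l (k + j))]
    refine sum_congr rfl fun k _ => ?_
    rw [sum_const, nsmul_eq_mul, mul_comm]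
    rfl
  have h := pair_count hr2 hl h0 hj
  rw [key, key] at h
  simpa using h

end

end Pool.Agent.Helper44.KM
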