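import Pool.Agent.Helper79.KM.One

/-!
# Cyclotomic numbers of order five

The values modulo `5` of the sums of products of powers of the logarithms of `x` and `1 - x` with
values in `ZMod 5`.
-/

open Finset

namespace Pool.Agent.Helper44.KM

open Pool.Agent.Helper79.KM

theorem one_ne_five : (1 : ZMod 5) ≠ 0 := by decide

theorem two_ne_five : (2 : ZMod 5) ≠ 0 := by decide

section

variable {K : Type*} [Field K] [Fintype K] [DecidableEq K] {l : K → ZMod 5}

/-- the elements different from zero and one -/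
def rest (K : Type*) [Field K] [Fintype K] [DecidableEq K] : Finset K := (univ.erase (0 : K)).erase 1

theorem mem_rest {x : K} : x ∈ rest K ↔ x ≠ 1 ∧ x ≠ 0 := by
  rw [rest, mem_erase, mem_erase]
  simp

/-- the cyclotomic numbers -/
def cn (l : K → ZMod 5) (i j : ZMod 5) : ℤ :=
  ((rest K).filter fun x => l x = i ∧ l (1 - x) = j).card

theorem cn_comm (i j : ZMod 5) : cn l i j = cn l j i := by
  rw [cn, cn]
  congr 1
  refine card_bij' (fun x _ => 1 - x) (fun x _ => 1 - x) ?_ ?_ ?_ ?_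
  · intro x hx
    rw [mem_filter, mem_rest] at hx ⊢
    refine ⟨⟨fun h => hx.1.2 (by linear_combination -h), sub_ne_zero.2 (Ne.symm hx.1.1)⟩, ?_, ?_⟩
    · exact hx.2.2
    · rw [sub_sub_cancel]
      exact hx.2.1
  · intro x hx
    rw [mem_filter, mem_rest] at hx ⊢
    refine ⟨⟨fun h => hx.1.2 (by linear_combination -h), sub_ne_zero.2 (Ne.symm hx.1.1)⟩, ?_, ?_⟩
    · exact hx.2.2
    · rw [sub_sub_cancel]
      exact hx.2.1
  · intro x _
    exact sub_sub_cancel 1 x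
  · intro x _
    exact sub_sub_cancel 1 x

theorem cn_inv [hr : Fact (Nat.Prime 5)] (hl : IsLog l) (i j : ZMod 5) :
    cn l i j = cn l (-i) (j - i) := by
  have key : ∀ x : K, x ≠ 1 → x ≠ 0 → l (1 - x⁻¹) = l (1 - x) - l x := by
    intro x h1 h0
    have e : 1 - x⁻¹ = (x - 1) / x := by field_simp
    rw [e, hl.div (sub_ne_zero.2 h1) h0, hl.sub_comm (by omega : (5 : ℕ) ≠ 2)]
  rw [cn, cn]
  congr 1
  refine card_bij' (fun x _ => x⁻¹) (fun x _ => x⁻¹) ?_ ?_ ?_ ?_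
  · intro x hx
    rw [mem_filter, mem_rest] at hx ⊢
    obtain ⟨⟨h1, h0⟩, hi, hj⟩ := hx
    refine ⟨⟨fun h => h1 (inv_eq_one.1 h), inv_ne_zero h0⟩, ?_, ?_⟩
    · rw [hl.inv, hi]
    · rw [key x h1 h0, hi, hj]
  · intro x hx
    rw [mem_filter, mem_rest] at hx ⊢
    obtain ⟨⟨h1, h0⟩, hi, hj⟩ := hx
    refine ⟨⟨fun h => h1 (inv_eq_one.1 h), inv_ne_zero h0⟩, ?_, ?_⟩
    · rw [hl.inv, hi, neg_neg]
    · rw [key x h1 h0, hi, hj]
      ring
  · intro x _
    exact inv_inv x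
  · intro x _
    exact inv_inv x

/-- sums over the elements different from zero and one -/
theorem sum_cn {M : Type*} [CommRing M] (G : ZMod 5 → ZMod 5 → M) :
    ∑ x ∈ rest K, G (l x) (l (1 - x)) = ∑ i, ∑ j, (cn l i j : M) * G i j := by
  rw [← sum_fiberwise' (rest K) (fun x => (l x, l (1 - x))) (fun y => G y.1 y.2),
    Fintype.sum_prod_type]
  refine sum_congr rfl fun i _ => sum_congr rfl fun j _ => ?_
  rw [sum_const, nsmul_eq_mul, cn, Int.cast_natCast]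
  congr 2
  refine congrArg _ (filter_congr fun x _ => ?_)
  rw [Prod.mk.injEq]

theorem sum_five {M : Type*} [AddCommMonoid M] (f : ZMod 5 → M) :
    ∑ x, f x = f 0 + f 1 + f 2 + f 3 + f 4 := Fin.sum_univ_five f

theorem bs_cn (hl : IsLog l) {a b : ℕ} (ha : 0 < a) (hb : 0 < b) :
    bs l a b = ∑ i, ∑ j, (cn l i j : ZMod 5) * (i ^ a * j ^ b) := by
  rw [← sum_cn (l := l) (fun i j => i ^ a * j ^ b), bs, rest]
  have h1mem : (1 : K) ∈ univ.erase (0 : K) := by
    rw [mem_erase]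
    exact ⟨one_ne_zero, mem_univ _⟩
  rw [← add_sum_erase univ _ (mem_univ (0 : K)), ← add_sum_erase _ _ h1mem]
  rw [hl.zero, sub_self, hl.zero, zero_pow ha.ne', zero_pow hb.ne', zero_mul, mul_zero, zero_add,
    zero_add]

/-- the number of elements with a given logarithm -/
theorem fiber [hr : Fact (Nat.Prime 5)] (hl : IsLog l) (h0 : ∃ x, l x ≠ 0) {w : ℕ}
    (hw : Fintype.card K = 5 * w + 1) (i : ZMod 5) :
    ((univ.erase (0 : K)).filter fun x => l x = i).card = w := by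
  obtain ⟨g, hg⟩ := h0
  have hg0 : g ≠ 0 := by
    rintro rfl
    exact hg hl.zero
  have step : ∀ i : ZMod 5, ((univ.erase (0 : K)).filter fun x => l x = i + l g).card =
      ((univ.erase (0 : K)).filter fun x => l x = i).card := by
    intro i
    refine card_bij' (fun x _ => g⁻¹ * x) (fun x _ => g * x) ?_ ?_ ?_ ?_
    · intro x hx
      rw [mem_filter, mem_erase] at hx ⊢
      refine ⟨⟨mul_ne_zero (inv_ne_zero hg0) hx.1.1, mem_univ _⟩, ?_⟩
      rw [hl.mul _ _ (inv_ne_zero hg0) hx.1.1, hl.inv, hx.2]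
      ring
    · intro x hx
      rw [mem_filter, mem_erase] at hx ⊢
      refine ⟨⟨mul_ne_zero hg0 hx.1.1, mem_univ _⟩, ?_⟩
      rw [hl.mul _ _ hg0 hx.1.1, hx.2]
      ring
    · intro x _
      rw [← mul_assoc, mul_inv_cancel₀ hg0, one_mul]
    · intro x _
      rw [← mul_assoc, inv_mul_cancel₀ hg0, one_mul]
  have hall : ∀ n : ℕ, ((univ.erase (0 : K)).filter fun x => l x = (n : ZMod 5) * l g).card =
      ((univ.erase (0 : K)).filter fun x => l x = 0).card := by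
    intro n
    induction n with
    | zero => rw [Nat.cast_zero, zero_mul]
    | succ n ih =>
      have h1 : ((n + 1 : ℕ) : ZMod 5) * l g = (n : ZMod 5) * l g + l g := by
        push_cast
        ring
      rw [h1, step, ih]
  have heq : ∀ i : ZMod 5, ((univ.erase (0 : K)).filter fun x => l x = i).card =
      ((univ.erase (0 : K)).filter fun x => l x = 0).card := by
    intro i
    rw [← hall (i * (l g)⁻¹).val, ZMod.natCast_zmod_val, mul_assoc, inv_mul_cancel₀ hg, mul_one]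
  have htot : (univ.erase (0 : K)).card =
      ∑ i : ZMod 5, ((univ.erase (0 : K)).filter fun x => l x = i).card :=
    card_eq_sum_card_fiberwise fun x _ => mem_univ (l x)
  rw [sum_congr rfl fun i _ => heq i, sum_const, card_univ, ZMod.card, smul_eq_mul,
    card_erase_of_mem (mem_univ _), card_univ, hw] at htot
  rw [heq i]
  omega

/-- the sums of the rows -/
theorem row [hr : Fact (Nat.Prime 5)] (hl : IsLog l) (h0 : ∃ x, l x ≠ 0) {w : ℕ}
    (hw : Fintype.card K = 5 * w + 1) (i : ZMod 5) :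
    ∑ j, cn l i j = if i = 0 then (w : ℤ) - 1 else w := by
  have h1mem : (1 : K) ∈ univ.erase (0 : K) := by
    rw [mem_erase]
    exact ⟨one_ne_zero, mem_univ _⟩
  have h1 : ∑ j, cn l i j = ∑ x ∈ rest K, if l x = i then (1 : ℤ) else 0 := by
    have h2 := sum_cn (K := K) (l := l) (M := ℤ) (fun i' _ => if i' = i then (1 : ℤ) else 0)
    refine Eq.trans ?_ h2.symm
    symm
    refine (sum_eq_single (M := ℤ) i ?_ ?_).trans ?_
    · intro i' _ hi'
      refine sum_eq_zero fun j _ => ?_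
      rw [if_neg hi', mul_zero]
    · intro h
      exact absurd (mem_univ _) h
    · refine sum_congr rfl fun j _ => ?_
      rw [if_pos rfl, mul_one, Int.cast_id]
  have h2 := add_sum_erase (univ.erase (0 : K)) (fun x => if l x = i then (1 : ℤ) else 0) h1mem
  have h3 : ∑ x ∈ univ.erase (0 : K), (if l x = i then (1 : ℤ) else 0) = w := by
    rw [← fiber hl h0 hw i, card_filter]
    push_cast
    rfl
  rw [h1, rest]
  rw [h3, hl.one] at h2
  by_cases hi : i = 0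
  · rw [if_pos hi]
    rw [if_pos hi.symm] at h2
    linear_combination h2
  · rw [if_neg hi]
    rw [if_neg (Ne.symm hi)] at h2
    linear_combination h2

/-- the number of elements with a given value of `l x + l (1 - x)` -/
def mc (l : K → ZMod 5) (k : ZMod 5) : ℤ :=
  ((rest K).filter fun x => l x + l (1 - x) = k).card

theorem mc_eq (k : ZMod 5) : mc l k = ∑ i, cn l i (k - i) := by
  have h1 : mc l k = ∑ x ∈ rest K, if l x + l (1 - x) = k then (1 : ℤ) else 0 := by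
    rw [mc, card_filter]
    push_cast
    rfl
  rw [h1, sum_cn (l := l) (fun i j => if i + j = k then (1 : ℤ) else 0)]
  refine sum_congr rfl fun i _ => ?_
  rw [sum_eq_single (k - i)]
  · rw [if_pos (by ring), mul_one, Int.cast_id]
  · intro j _ hj
    rw [if_neg, mul_zero]
    intro h
    apply hj
    linear_combination h
  · intro h
    exact absurd (mem_univ _) h

/-- the number of pairs with a given difference -/
theorem pair_eq (j : ZMod 5) :
    ((((rest K) ×ˢ (rest K)).filter fun P =>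
      (l P.1 + l (1 - P.1)) - (l P.2 + l (1 - P.2)) = j).card : ℤ) =
        ∑ k, mc l (k + j) * mc l k := by
  have h1 : ((((rest K) ×ˢ (rest K)).filter fun P =>
      (l P.1 + l (1 - P.1)) - (l P.2 + l (1 - P.2)) = j).card : ℤ) =
        ∑ y ∈ rest K, mc l ((l y + l (1 - y)) + j) := by
    rw [card_filter, sum_product_right]
    push_cast
    refine sum_congr rfl fun y _ => ?_
    rw [mc, card_filter]
    push_cast
    refine sum_congr rfl fun x _ => ?_
    congr 1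
    rw [eq_iff_iff]
    constructor
    · intro h
      linear_combination h
    · intro h
      linear_combination h
  rw [h1, ← sum_fiberwise' (rest K) (fun x => l x + l (1 - x)) (fun k => mc l (k + j))]
  refine sum_congr rfl fun k _ => ?_
  rw [sum_const, nsmul_eq_mul, mul_comm]
  rfl

/-- the relations between the cyclotomic numbers -/
theorem five_rel {N0 B1 B2 B3 B4 F G w M0 M1 M2 M3 M4 : ℤ}
    (r0 : N0 = 3 * F + 3 * G - w - 1) (r1 : B4 = w - 2 * F - G - B1)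
    (r2 : B3 = w - F - 2 * G - B2) (m0 : M0 = N0 + 2 * F + 2 * G)
    (m1 : M1 = 2 * B1 + B2 + 2 * G) (m2 : M2 = 2 * B2 + B4 + 2 * F)
    (m3 : M3 = 2 * B3 + B1 + 2 * F) (m4 : M4 = 2 * B4 + B3 + 2 * G)
    (h12 : M1 * M0 + M2 * M1 + M3 * M2 + M4 * M3 + M0 * M4 =
      M2 * M0 + M3 * M1 + M4 * M2 + M0 * M3 + M1 * M4)
    (h01 : M0 * M0 + M1 * M1 + M2 * M2 + M3 * M3 + M4 * M4 =
      (M1 * M0 + M2 * M1 + M3 * M2 + M4 * M3 + M0 * M4) + (5 * w + 1)) :
    (G - F) * (25 * (F + G) - 10 * w - 4) =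
        (B4 - B1) ^ 2 + 4 * (B4 - B1) * (B2 - B3) - (B2 - B3) ^ 2 ∧
      25 * (F + G) ^ 2 + 4 * w ^ 2 - 20 * (F + G) * w - 8 * (F + G) + 5 * (G - F) ^ 2 +
        2 * ((B4 - B1) ^ 2 + (B2 - B3) ^ 2) = 0 := by
  subst m0 m1 m2 m3 m4 r0 r1 r2
  constructor
  · have h : 5 * ((G - F) * (25 * (F + G) - 10 * w - 4)) =
        5 * ((w - 2 * F - G - B1 - B1) ^ 2 +
          4 * (w - 2 * F - G - B1 - B1) * (B2 - (w - F - 2 * G - B2)) -
            (B2 - (w - F - 2 * G - B2)) ^ 2) := by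
      linear_combination 4 * h12
    exact mul_left_cancel₀ (by norm_num) h
  · have h : 25 * (25 * (F + G) ^ 2 + 4 * w ^ 2 - 20 * (F + G) * w - 8 * (F + G) +
        5 * (G - F) ^ 2 + 2 * ((w - 2 * F - G - B1 - B1) ^ 2 +
          (B2 - (w - F - 2 * G - B2)) ^ 2)) = 25 * 0 := by
      linear_combination 16 * h01 + 8 * h12
    exact mul_left_cancel₀ (by norm_num) h

/-- the values modulo five of the sums of powers, from the cyclotomic numbers -/
theorem five_values (n : ZMod 5 → ZMod 5 → ZMod 5) {N0 B1 B2 B3 B4 F G W : ZMod 5}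
    (r1 : B4 = W - 2 * F - G - B1) (r2 : B3 = W - F - 2 * G - B2)
    (n00 : n 0 0 = N0) (n01 : n 0 1 = B1) (n02 : n 0 2 = B2) (n03 : n 0 3 = B3) (n04 : n 0 4 = B4)
    (n10 : n 1 0 = B1) (n20 : n 2 0 = B2) (n30 : n 3 0 = B3) (n40 : n 4 0 = B4)
    (n11 : n 1 1 = B4) (n22 : n 2 2 = B3) (n33 : n 3 3 = B2) (n44 : n 4 4 = B1)
    (n12 : n 1 2 = F) (n21 : n 2 1 = F) (n41 : n 4 1 = F) (n14 : n 1 4 = F) (n34 : n 3 4 = F)
    (n43 : n 4 3 = F) (n13 : n 1 3 = G) (n31 : n 3 1 = G) (n42 : n 4 2 = G) (n24 : n 2 4 = G)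
    (n23 : n 2 3 = G) (n32 : n 3 2 = G) :
    ∑ i, ∑ j, n i j * (i ^ 2 * j ^ 1) = (B4 - B1) + 2 * (B2 - B3) ∧
    ∑ i, ∑ j, n i j * (i ^ 4 * j ^ 3) = (B4 - B1) + 2 * (B2 - B3) ∧
    ∑ i, ∑ j, n i j * (i ^ 4 * j ^ 1) = (B4 - B1) - 2 * (B2 - B3) ∧
    ∑ i, ∑ j, n i j * (i ^ 3 * j ^ 2) = (B4 - B1) - 2 * (B2 - B3) ∧
    ∑ i, ∑ j, n i j * (i ^ 4 * j ^ 2) = F - G ∧
    ∑ i, ∑ j, n i j * (i ^ 3 * j ^ 3) = G - F ∧
    ∑ i, ∑ j, n i j * (i ^ 3 * j ^ 1) = 2 * W ∧
    ∑ i, ∑ j, n i j * (i ^ 2 * j ^ 2) = 2 * W ∧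
    ∑ i, ∑ j, n i j * (i ^ 1 * j ^ 1) = 0 ∧
    ∑ i, ∑ j, n i j * (i ^ 4 * j ^ 4) = 2 * W + 3 * (F + G) := by
  have h5 : (5 : ZMod 5) = 0 := by
    have := ZMod.natCast_self 5
    exact_mod_cast this
  simp only [sum_five, n00, n01, n02, n03, n04, n10, n20, n30, n40, n11, n22, n33, n44, n12, n21,
    n41, n14, n34, n43, n13, n31, n42, n24, n23, n32]
  subst r1 r2
  refine ⟨?_, ?_, ?_, ?_, ?_, ?_, ?_, ?_, ?_, ?_⟩
  · linear_combination ((13)*B1 + (3)*B2 + (20)*F + (14)*G + (2)*W) * h5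
  · linear_combination ((3277)*B1 + (411)*B2 + (2462)*F + (800)*G + (26)*W) * h5
  · linear_combination ((205)*B1 + (43)*B2 + (268)*F + (162)*G + (6)*W) * h5
  · linear_combination ((205)*B1 + (43)*B2 + (214)*F + (108)*G + (6)*W) * h5
  · linear_combination ((819)*B1 + (133)*B2 + (765)*F + (342)*G + (13)*W) * h5
  · linear_combination ((819)*B1 + (133)*B2 + (707)*F + (276)*G + (13)*W) * h5
  · linear_combination ((51)*B1 + (13)*B2 + (72)*F + (47)*G + (3)*W) * h5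
  · linear_combination ((51)*B1 + (13)*B2 + (62)*F + (37)*G + (3)*W) * h5
  · linear_combination ((3)*B1 + (1)*B2 + (6)*F + (5)*G + (1)*W) * h5
  · linear_combination ((13107)*B1 + (1261)*B2 + (8351)*F + (2086)*G + (51)*W) * h5

/-- the relations modulo five -/
theorem five_end {B1 B2 B3 B4 F G W : ZMod 5} (h5 : (5 : ZMod 5) = 0)
    (k1 : (G - F) * (25 * (F + G) - 10 * W - 4) =
      (B4 - B1) ^ 2 + 4 * (B4 - B1) * (B2 - B3) - (B2 - B3) ^ 2)
    (k2 : 25 * (F + G) ^ 2 + 4 * W ^ 2 - 20 * (F + G) * W - 8 * (F + G) + 5 * (G - F) ^ 2 +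
      2 * ((B4 - B1) ^ 2 + (B2 - B3) ^ 2) = 0) :
    F - G = -((B4 - B1) + 2 * (B2 - B3)) ^ 2 ∧ G - F = ((B4 - B1) + 2 * (B2 - B3)) ^ 2 ∧
      2 * W + 3 * (F + G) = 2 * W - W ^ 2 +
        2 * ((B4 - B1) + 2 * (B2 - B3)) * ((B4 - B1) - 2 * (B2 - B3)) := by
  refine ⟨?_, ?_, ?_⟩
  · linear_combination
      -k1 + ((F - G) + (B2 - B3) ^ 2 + (G - F) * (5 * (F + G) - 2 * W)) * h5
  · linear_combination k1 + ((G - F) - (B2 - B3) ^ 2 - (G - F) * (5 * (F + G) - 2 * W)) * h5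
  · linear_combination -k2 + (-(F + G) + W ^ 2 + 2 * (B2 - B3) ^ 2 + 5 * (F + G) ^ 2 -
      4 * (F + G) * W + (G - F) ^ 2) * h5

/-- the table of the sums of powers of the logarithms modulo five -/
theorem five_table [hr : Fact (Nat.Prime 5)] (hl : IsLog l) (h0 : ∃ x, l x ≠ 0) {w : ℕ}
    (hw : Fintype.card K = 5 * w + 1)
    (hJ : ∀ j : ZMod 5, j ≠ 0 → ((((rest K) ×ˢ (rest K)).filter fun P =>
      (l P.1 + l (1 - P.1)) - (l P.2 + l (1 - P.2)) = 0).card : ℤ) =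
        (((rest K) ×ˢ (rest K)).filter fun P =>
          (l P.1 + l (1 - P.1)) - (l P.2 + l (1 - P.2)) = j).card + Fintype.card K) :
    bs l 4 2 = -bs l 2 1 ^ 2 ∧ bs l 3 3 = bs l 2 1 ^ 2 ∧ bs l 3 2 = bs l 4 1 ∧
      bs l 4 3 = bs l 2 1 ∧ bs l 3 1 = 2 * (w : ZMod 5) ∧ bs l 2 2 = 2 * (w : ZMod 5) ∧
        bs l 1 1 = 0 ∧ ∑ x, l x ^ 4 = -(w : ZMod 5) ∧
          bs l 4 4 = 2 * (w : ZMod 5) - (w : ZMod 5) ^ 2 + 2 * bs l 2 1 * bs l 4 1 := by
  have h5 : (5 : ZMod 5) = 0 := by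
    have := ZMod.natCast_self 5
    exact_mod_cast this
  -- the symmetries
  have n10 : cn l 1 0 = cn l 0 1 := cn_comm 1 0
  have n20 : cn l 2 0 = cn l 0 2 := cn_comm 2 0
  have n30 : cn l 3 0 = cn l 0 3 := cn_comm 3 0
  have n40 : cn l 4 0 = cn l 0 4 := cn_comm 4 0
  have n44 : cn l 4 4 = cn l 0 1 := (cn_inv hl 1 0).symm.trans n10
  have n33 : cn l 3 3 = cn l 0 2 := (cn_inv hl 2 0).symm.trans n20
  have n22 : cn l 2 2 = cn l 0 3 := (cn_inv hl 3 0).symm.trans n30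
  have n11 : cn l 1 1 = cn l 0 4 := (cn_inv hl 4 0).symm.trans n40
  have n21 : cn l 2 1 = cn l 1 2 := cn_comm 2 1
  have n41 : cn l 4 1 = cn l 1 2 := (cn_inv hl 1 2).symm
  have n14 : cn l 1 4 = cn l 1 2 := (cn_comm 1 4).trans n41
  have n34 : cn l 3 4 = cn l 1 2 := (cn_inv hl 2 1).symm.trans n21
  have n43 : cn l 4 3 = cn l 1 2 := (cn_comm 4 3).trans n34
  have n31 : cn l 3 1 = cn l 1 3 := cn_comm 3 1
  have n42 : cn l 4 2 = cn l 1 3 := (cn_inv hl 1 3).symm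
  have n24 : cn l 2 4 = cn l 1 3 := (cn_comm 2 4).trans n42
  have n23 : cn l 2 3 = cn l 1 3 := (cn_inv hl 3 1).symm.trans n31
  have n32 : cn l 3 2 = cn l 1 3 := (cn_comm 3 2).trans n23
  -- the rows
  have r0 := row hl h0 hw 0
  have r1 := row hl h0 hw 1
  have r2 := row hl h0 hw 2
  rw [sum_five, if_pos rfl] at r0
  rw [sum_five, if_neg one_ne_five, n10, n11, n14] at r1
  rw [sum_five, if_neg two_ne_five, n20, n21, n22, n23, n24] at r2
  have s1 : cn l 0 4 = w - 2 * cn l 1 2 - cn l 1 3 - cn l 0 1 := by linear_combination r1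
  have s2 : cn l 0 3 = w - cn l 1 2 - 2 * cn l 1 3 - cn l 0 2 := by linear_combination r2
  have s0 : cn l 0 0 = 3 * cn l 1 2 + 3 * cn l 1 3 - w - 1 := by
    linear_combination r0 - r1 - r2
  -- the numbers of solutions
  have m0 : mc l 0 = cn l 0 0 + 2 * cn l 1 2 + 2 * cn l 1 3 := by
    have h : mc l 0 = cn l 0 0 + cn l 1 4 + cn l 2 3 + cn l 3 2 + cn l 4 1 :=
      (mc_eq 0).trans (sum_five _)
    linear_combination h + n14 + n23 + n32 + n41
  have m1 : mc l 1 = 2 * cn l 0 1 + cn l 0 2 + 2 * cn l 1 3 := by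
    have h : mc l 1 = cn l 0 1 + cn l 1 0 + cn l 2 4 + cn l 3 3 + cn l 4 2 :=
      (mc_eq 1).trans (sum_five _)
    linear_combination h + n10 + n24 + n33 + n42
  have m2 : mc l 2 = 2 * cn l 0 2 + cn l 0 4 + 2 * cn l 1 2 := by
    have h : mc l 2 = cn l 0 2 + cn l 1 1 + cn l 2 0 + cn l 3 4 + cn l 4 3 :=
      (mc_eq 2).trans (sum_five _)
    linear_combination h + n11 + n20 + n34 + n43
  have m3 : mc l 3 = 2 * cn l 0 3 + cn l 0 1 + 2 * cn l 1 2 := by
    have h : mc l 3 = cn l 0 3 + cn l 1 2 + cn l 2 1 + cn l 3 0 + cn l 4 4 :=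
      (mc_eq 3).trans (sum_five _)
    linear_combination h + n21 + n30 + n44
  have m4 : mc l 4 = 2 * cn l 0 4 + cn l 0 3 + 2 * cn l 1 3 := by
    have h : mc l 4 = cn l 0 4 + cn l 1 3 + cn l 2 2 + cn l 3 1 + cn l 4 0 :=
      (mc_eq 4).trans (sum_five _)
    linear_combination h + n22 + n31 + n40
  -- the two relations
  have J1 := hJ 1 one_ne_five
  have J2 := hJ 2 two_ne_five
  rw [pair_eq, pair_eq, hw] at J1 J2
  have e0 : ∑ k, mc l (k + 0) * mc l k = mc l 0 * mc l 0 + mc l 1 * mc l 1 + mc l 2 * mc l 2 +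
      mc l 3 * mc l 3 + mc l 4 * mc l 4 := sum_five _
  have e1 : ∑ k, mc l (k + 1) * mc l k = mc l 1 * mc l 0 + mc l 2 * mc l 1 + mc l 3 * mc l 2 +
      mc l 4 * mc l 3 + mc l 0 * mc l 4 := sum_five _
  have e2 : ∑ k, mc l (k + 2) * mc l k = mc l 2 * mc l 0 + mc l 3 * mc l 1 + mc l 4 * mc l 2 +
      mc l 0 * mc l 3 + mc l 1 * mc l 4 := sum_five _
  rw [e0, e1] at J1
  rw [e0, e2] at J2
  push_cast at J1 J2
  obtain ⟨k1, k2⟩ := five_rel s0 s1 s2 m0 m1 m2 m3 m4 (by linear_combination J2 - J1) J1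
  have k1' := congrArg (Int.cast (R := ZMod 5)) k1
  have k2' := congrArg (Int.cast (R := ZMod 5)) k2
  push_cast at k1' k2'
  -- the table
  have c := fun {x y : ℤ} (h : x = y) => congrArg (Int.cast (R := ZMod 5)) h
  obtain ⟨t1, t2, t3, t4, t5, t6, t7, t8, t9, t10⟩ := five_values (fun i j => (cn l i j : ZMod 5))
    (N0 := (cn l 0 0 : ZMod 5)) (B1 := (cn l 0 1 : ZMod 5)) (B2 := (cn l 0 2 : ZMod 5))
    (B3 := (cn l 0 3 : ZMod 5)) (B4 := (cn l 0 4 : ZMod 5)) (F := (cn l 1 2 : ZMod 5))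
    (G := (cn l 1 3 : ZMod 5)) (W := (w : ZMod 5)) (by rw [s1]; push_cast; ring)
    (by rw [s2]; push_cast; ring) rfl rfl rfl rfl rfl (c n10) (c n20) (c n30) (c n40) (c n11)
    (c n22) (c n33) (c n44) rfl (c n21) (c n41) (c n14) (c n34) (c n43) rfl (c n31) (c n42)
    (c n24) (c n23) (c n32)
  rw [← bs_cn hl (by norm_num) (by norm_num)] at t1 t2 t3 t4 t5 t6 t7 t8 t9 t10
  -- the sum of the fourth powers
  have h4 : ∑ x, l x ^ 4 = -(w : ZMod 5) := by
    rw [← add_sum_erase univ _ (mem_univ (0 : K)), hl.zero, zero_pow (by norm_num), zero_add,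
      ← sum_fiberwise' (univ.erase (0 : K)) l (fun i => i ^ 4)]
    have h : ∀ i : ZMod 5, ∑ _x ∈ (univ.erase (0 : K)) with l _x = i, i ^ 4 =
        (w : ZMod 5) * i ^ 4 := by
      intro i
      rw [sum_const, nsmul_eq_mul, fiber hl h0 hw i]
    rw [sum_congr rfl fun i _ => h i, sum_five]
    linear_combination (71 * (w : ZMod 5)) * h5
  obtain ⟨q1, q2, q3⟩ := five_end h5 k1' k2'
  rw [t1, t2, t3, t4, t5, t6, t7, t8, t9, t10]
  exact ⟨q1, q2, rfl, rfl, rfl, rfl, rfl, h4, q3⟩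

end

end Pool.Agent.Helper44.KM
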