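import Pool.Agent.Helper44.KM.Seven
import Pool.Agent.Helper79.KM.Gen

/-!
# The sixth moment of the logarithms modulo seven on the complement of the quadrilateral
-/

open Finset

namespace Pool.Agent.Helper44.KM

open Pool.Agent.Helper79.KM

section

variable {R : Type*} [CommRing R]

theorem sS6_swap (a b c d e : R) : sS 6 a b c d e = sS 6 c d a b e := by
  simp only [sS]
  ring

theorem sS6_zeroOne (a b c d e : R) : sS 6 a b c d e = sS 6 b a d c e := by
  simp only [sS]
  ring

theorem sS6_zeroInf (a b c d e : R) :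
    sS 6 a b c d e = sS 6 (-(a + b + e)) b (-(c + d + e)) d e := by
  simp only [sS]
  ring

theorem sS6_oneY (a b c d e : R) : sS 6 a b c d e = sS 6 a e (-(a + b + c + d + e)) d b := by
  simp only [sS]
  ring

theorem alt_sS6 (a b c d e : R) : alt (fun a b c d e => sS 6 a b c d e) a b c d e =
    360 * (a * b * c * d * e * (a + b + c + d + e)) := by
  simp only [alt, sS]
  ring

end

section

variable {K : Type*} [Field K] [Fintype K] [DecidableEq K] {l : K → ZMod 7}
  [hr : Fact (Nat.Prime 7)] (hl : IsLog l)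

include hl

theorem Good.swap {a b c d e : ZMod 7} (h : Good l c d a b e) : Good l a b c d e := by
  have hr2 : (7 : ℕ) ≠ 2 := by omega
  refine ⟨?_, ?_, ?_, ?_⟩
  · rw [mo_swap hr2 hl, h.one]
  · rw [mo_swap hr2 hl, h.two]
  · rw [mo_swap hr2 hl, h.three, sS3_swap]
  · rw [mo_swap hr2 hl, h.six, sG_swap, sS6_swap]

theorem Good.zeroOne {a b c d e : ZMod 7} (h : Good l b a d c e) : Good l a b c d e := by
  have hr2 : (7 : ℕ) ≠ 2 := by omega
  refine ⟨?_, ?_, ?_, ?_⟩
  · rw [mo_zeroOne hr2 hl, h.one]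
  · rw [mo_zeroOne hr2 hl, h.two]
  · rw [mo_zeroOne hr2 hl, h.three, sS3_zeroOne]
  · rw [mo_zeroOne hr2 hl, h.six, sG_zeroOne, sS6_zeroOne]

theorem Good.zeroInf {a b c d e : ZMod 7} (h : Good l (-(a + b + e)) b (-(c + d + e)) d e) :
    Good l a b c d e := by
  have hr2 : (7 : ℕ) ≠ 2 := by omega
  refine ⟨?_, ?_, ?_, ?_⟩
  · rw [mo_zeroInf hr2 hl, h.one]
  · rw [mo_zeroInf hr2 hl, h.two]
  · rw [mo_zeroInf hr2 hl, h.three, sS3_zeroInf a b c d e]
  · rw [mo_zeroInf hr2 hl, h.six, sG_zeroInf a b c d e, sS6_zeroInf a b c d e]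

theorem Good.oneY {a b c d e : ZMod 7} (h : Good l a e (-(a + b + c + d + e)) d b) :
    Good l a b c d e := by
  have hr2 : (7 : ℕ) ≠ 2 := by omega
  refine ⟨?_, ?_, ?_, ?_⟩
  · rw [mo_oneY hr2 hl, h.one]
  · rw [mo_oneY hr2 hl, h.two]
  · rw [mo_oneY hr2 hl, h.three, sS3_oneY a b c d e]
  · rw [mo_oneY hr2 hl, h.six, sG_oneY a b c d e, sS6_oneY a b c d e]

end

section

variable {K : Type*} [Field K] [Fintype K] [DecidableEq K] {l : K → ZMod 7}
  [hr : Fact (Nat.Prime 7)] (hl : IsLog l) (hK : (Fintype.card K : ZMod 7) = 1)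
  (h42 : bs l 4 2 = -6 * bs l 2 1 ^ 2 + 4 * sg l)

include hl hK h42

theorem good_b (a c d e : ZMod 7) : Good l a 0 c d e := by
  apply Good.oneY hl
  exact good_zero hl hK h42 _ _ _ _

theorem good_a (b c d e : ZMod 7) : Good l 0 b c d e := by
  apply Good.zeroOne hl
  exact good_b hl hK h42 _ _ _ _

theorem good_d (a b c e : ZMod 7) : Good l a b c 0 e := by
  apply Good.swap hl
  exact good_b hl hK h42 _ _ _ _

theorem good_c (a b d e : ZMod 7) : Good l a b 0 d e := by
  apply Good.swap hl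
  exact good_a hl hK h42 _ _ _ _

theorem good_abe {a b c d e : ZMod 7} (h : a + b + e = 0) : Good l a b c d e := by
  apply Good.zeroInf hl
  rw [h, neg_zero]
  exact good_a hl hK h42 _ _ _ _

theorem good_cde {a b c d e : ZMod 7} (h : c + d + e = 0) : Good l a b c d e := by
  apply Good.swap hl
  exact good_abe hl hK h42 h

/-- the values of the moments -/
theorem good (a b c d e : ZMod 7) : Good l a b c d e := by
  have hr2 : (7 : ℕ) ≠ 2 := by omega
  have h0 := good_a hl hK h42
  have h1 := good_b hl hK h42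
  have h2 := good_c hl hK h42
  have h3 := good_d hl hK h42
  have h4 := good_zero hl hK h42
  refine ⟨?_, ?_, ?_, ?_⟩
  · rw [← alt_of_zero (F := fun a b c d e => mo l a b c d e 1) (fun b c d e => (h0 b c d e).one)
      (fun a c d e => (h1 a c d e).one) (fun a b d e => (h2 a b d e).one)
      (fun a b c e => (h3 a b c e).one) (fun a b c d => (h4 a b c d).one), alt_mo]
    exact sum_eq_zero fun P _ => alt_ex_one P a b c d e
  · rw [← alt_of_zero (F := fun a b c d e => mo l a b c d e 2) (fun b c d e => (h0 b c d e).two)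
      (fun a c d e => (h1 a c d e).two) (fun a b d e => (h2 a b d e).two)
      (fun a b c e => (h3 a b c e).two) (fun a b c d => (h4 a b c d).two), alt_mo]
    exact sum_eq_zero fun P _ => alt_ex_two P a b c d e
  · rw [← sub_eq_zero, ← alt_of_zero
      (F := fun a b c d e => mo l a b c d e 3 - bs l 2 1 * sS 3 a b c d e)
      (fun b c d e => sub_eq_zero.2 (h0 b c d e).three)
      (fun a c d e => sub_eq_zero.2 (h1 a c d e).three)
      (fun a b d e => sub_eq_zero.2 (h2 a b d e).three)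
      (fun a b c e => sub_eq_zero.2 (h3 a b c e).three)
      (fun a b c d => sub_eq_zero.2 (h4 a b c d).three)]
    have e1 : alt (fun a b c d e => mo l a b c d e 3 - bs l 2 1 * sS 3 a b c d e) a b c d e =
        alt (fun a b c d e => mo l a b c d e 3) a b c d e -
          bs l 2 1 * alt (fun a b c d e => sS 3 a b c d e) a b c d e := by
      simp only [alt]
      ring
    rw [e1, alt_sS3, alt_mo, mul_zero, sub_zero]
    exact sum_eq_zero fun P _ => alt_ex_three P a b c d e
  · -- the sixth moment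
    set w0 := ∑ P ∈ pts K, pr l P * l P.1 with hw0
    set w1 := ∑ P ∈ pts K, pr l P * l (1 - P.1) with hw1
    set w2 := ∑ P ∈ pts K, pr l P * l P.2 with hw2
    set w3 := ∑ P ∈ pts K, pr l P * l (1 - P.2) with hw3
    set w4 := ∑ P ∈ pts K, pr l P * l (P.1 - P.2) with hw4
    set B := bs l 2 1 with hB
    set σ := sg l with hσ
    have key : ∀ a b c d e : ZMod 7,
        4 * mo l a b c d e 6 - (15 * (B ^ 2 * sG a b c d e) + 12 * (σ * sS 6 a b c d e)) =
        (a * b * c * d * e) * (a * (1440 * w0 - 12240 * B ^ 2 - 4320 * σ) +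
          b * (1440 * w1 - 12240 * B ^ 2 - 4320 * σ) +
          c * (1440 * w2 - 12240 * B ^ 2 - 4320 * σ) +
            d * (1440 * w3 - 12240 * B ^ 2 - 4320 * σ) +
            e * (1440 * w4 - 12240 * B ^ 2 - 4320 * σ)) := by
      intro a b c d e
      rw [← alt_of_zero
        (F := fun a b c d e =>
          4 * mo l a b c d e 6 - (15 * (B ^ 2 * sG a b c d e) + 12 * (σ * sS 6 a b c d e)))
        (fun b c d e => sub_eq_zero.2 (h0 b c d e).six)
        (fun a c d e => sub_eq_zero.2 (h1 a c d e).six)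
        (fun a b d e => sub_eq_zero.2 (h2 a b d e).six)
        (fun a b c e => sub_eq_zero.2 (h3 a b c e).six)
        (fun a b c d => sub_eq_zero.2 (h4 a b c d).six)]
      have e1 : alt (fun a b c d e =>
          4 * mo l a b c d e 6 - (15 * (B ^ 2 * sG a b c d e) + 12 * (σ * sS 6 a b c d e)))
          a b c d e = 4 * alt (fun a b c d e => mo l a b c d e 6) a b c d e -
            15 * (B ^ 2 * alt (fun a b c d e => sG a b c d e) a b c d e) -
              12 * (σ * alt (fun a b c d e => sS 6 a b c d e) a b c d e) := by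
        simp only [alt]
        ring
      rw [e1, alt_sG, alt_sS6, alt_mo_six, ← hw0, ← hw1, ← hw2, ← hw3, ← hw4]
      ring
    set m0 := 1440 * w0 - 12240 * B ^ 2 - 4320 * σ with hm0
    set m1 := 1440 * w1 - 12240 * B ^ 2 - 4320 * σ with hm1
    set m2 := 1440 * w2 - 12240 * B ^ 2 - 4320 * σ with hm2
    set m3 := 1440 * w3 - 12240 * B ^ 2 - 4320 * σ with hm3
    set m4 := 1440 * w4 - 12240 * B ^ 2 - 4320 * σ with hm4
    have k0 : (0 : ZMod 7) = (1 * 1 * 1 * 1 * (-2)) * (1 * m0 + 1 * m1 + 1 * m2 + 1 * m3 +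
        (-2) * m4) := by
      rw [← key]
      exact (sub_eq_zero.2 (good_abe hl hK h42 (by norm_num)).six).symm
    have k1 : (0 : ZMod 7) = (1 * 1 * 2 * 1 * (-2)) * (1 * m0 + 1 * m1 + 2 * m2 + 1 * m3 +
        (-2) * m4) := by
      rw [← key]
      exact (sub_eq_zero.2 (good_abe hl hK h42 (by norm_num)).six).symm
    have k2 : (0 : ZMod 7) = (1 * 1 * 1 * 2 * (-2)) * (1 * m0 + 1 * m1 + 1 * m2 + 2 * m3 +
        (-2) * m4) := by
      rw [← key]
      exact (sub_eq_zero.2 (good_abe hl hK h42 (by norm_num)).six).symm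
    have k3 : (0 : ZMod 7) = (2 * 1 * 1 * 1 * (-2)) * (2 * m0 + 1 * m1 + 1 * m2 + 1 * m3 +
        (-2) * m4) := by
      rw [← key]
      exact (sub_eq_zero.2 (good_cde hl hK h42 (by norm_num)).six).symm
    have k4 : (0 : ZMod 7) = (1 * 2 * 1 * 1 * (-2)) * (1 * m0 + 2 * m1 + 1 * m2 + 1 * m3 +
        (-2) * m4) := by
      rw [← key]
      exact (sub_eq_zero.2 (good_cde hl hK h42 (by norm_num)).six).symm
    have ht := two_ne hr2
    have ht4 : (4 : ZMod 7) ≠ 0 := by
      have : (4 : ZMod 7) = 2 * 2 := by norm_num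
      rw [this]
      exact mul_ne_zero ht ht
    have z2 : m2 = 0 := (mul_eq_zero.1 (by linear_combination k1 - 2 * k0 :
      (4 : ZMod 7) * m2 = 0)).resolve_left ht4
    have z3 : m3 = 0 := (mul_eq_zero.1 (by linear_combination k2 - 2 * k0 :
      (4 : ZMod 7) * m3 = 0)).resolve_left ht4
    have z0 : m0 = 0 := (mul_eq_zero.1 (by linear_combination k3 - 2 * k0 :
      (4 : ZMod 7) * m0 = 0)).resolve_left ht4
    have z1 : m1 = 0 := (mul_eq_zero.1 (by linear_combination k4 - 2 * k0 :
      (4 : ZMod 7) * m1 = 0)).resolve_left ht4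
    have z4 : m4 = 0 := by
      rw [z0, z1, z2, z3] at k0
      exact (mul_eq_zero.1 (by linear_combination -k0 :
        (4 : ZMod 7) * m4 = 0)).resolve_left ht4
    rw [← sub_eq_zero, key a b c d e, z0, z1, z2, z3, z4]
    ring

/-- the sixth moment of the differences -/
theorem gen_six (a b c d e : ZMod 7) :
    ∑ P ∈ pts K, ∑ Q ∈ pts K, (ex l a b c d e P - ex l a b c d e Q) ^ 6 =
      5 * (bs l 2 1 ^ 2 * kD a b c d e) + 12 * (sg l * sS 6 a b c d e) := by
  have h := good hl hK h42 a b c d e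
  have m0 : ∑ P ∈ pts K, ex l a b c d e P ^ 0 = 2 := by
    rw [← al_zero hl hK, al]
    exact sum_congr rfl fun P _ => by rw [pow_zero, pow_zero, pow_zero, mul_one]
  have m1 : ∑ P ∈ pts K, ex l a b c d e P ^ 1 = 0 := h.one
  have m2 : ∑ P ∈ pts K, ex l a b c d e P ^ 2 = 0 := h.two
  have m3 : ∑ P ∈ pts K, ex l a b c d e P ^ 3 = bs l 2 1 * sS 3 a b c d e := h.three
  have m6 : 4 * ∑ P ∈ pts K, ex l a b c d e P ^ 6 =
      15 * (bs l 2 1 ^ 2 * sG a b c d e) + 12 * (sg l * sS 6 a b c d e) := h.six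
  rw [six, m0, m1, m2, m3, kD]
  linear_combination m6

end

end Pool.Agent.Helper44.KM
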