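import Pool.Agent.Helper44.KM.Count
import Pool.Agent.Helper44.KM.SevenFull

/-!
# The criterion with the sum of `ind x ^ 2 * ind (1 - x)` modulo seven
-/

open Finset

namespace Pool.Agent.Helper44.KM

open Pool.Agent.Helper79.KM Pool.Agent.Helper73.LF Pool.Agent.Helper73.QC

theorem five_ne : (5 : ZMod 7) ≠ 0 := by
  decide

section

variable {K L : Type} [Field K] [Fintype K] [DecidableEq K] [Field L] [CharZero L] [IsAlgClosed L]
  {j : ℕ} [hr : Fact (Nat.Prime 7)]

omit [DecidableEq K] hr in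
theorem card_one_le : 1 ≤ Fintype.card K := Fintype.card_pos

omit [IsAlgClosed L] in
/-- the sum of the sixth powers of the logarithms -/
theorem sigma_eq (hj : 0 < j) {τ : MulChar K L} (hτ : orderOf τ = Fintype.card K - 1)
    (hd : 7 ^ j ∣ Fintype.card K - 1) {z : L} (hz : IsPrimitiveRoot z (7 ^ j))
    {e : K → ZMod (7 ^ j)} (he : ∀ x ≠ 0, ∀ a : ZMod (7 ^ j), ch τ a x = z ^ (a * e x).val) :
    ∃ a : ℤ, (j = 1 → (Fintype.card K : ℤ) = 1 + 7 * a) ∧ (j ≠ 1 → a = 0) ∧
      sg (lg hj e) = -(a : ZMod 7) := by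
  have hN : 1 < 7 ^ j := Nat.one_lt_pow hj.ne' (by norm_num)
  have : NeZero (7 ^ j) := ⟨by omega⟩
  have : Fact (1 < 7 ^ j) := ⟨hN⟩
  have hK0 : ((Fintype.card K - 1 : ℕ) : ZMod (7 ^ j)) = 0 := (ZMod.natCast_eq_zero_iff _ _).2 hd
  have hne : ch τ (1 : ZMod (7 ^ j)) ≠ 1 := ch_ne_one hτ (by rw [hK0, zero_mul]) one_ne_zero
  have hsum : ∑ x ∈ univ.erase (0 : K), z ^ (e x).val = ((0 : ℤ) : L) := by
    have h1 := MulChar.sum_eq_zero_of_ne_one hne
    rw [← add_sum_erase univ _ (mem_univ (0 : K)), map_zero'', zero_add] at h1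
    rw [Int.cast_zero, ← h1]
    refine sum_congr rfl fun x hx => ?_
    rw [mem_erase] at hx
    rw [he x hx.1, one_mul]
  obtain ⟨a, h1, h2, h3⟩ := count_pow hj hz (univ.erase (0 : K)) e 0 hsum
  refine ⟨a, fun hj1 => ?_, h2, ?_⟩
  · have h4 := h1 hj1
    rw [card_erase_of_mem (mem_univ _), card_univ, Nat.cast_sub card_one_le] at h4
    push_cast at h4
    linear_combination h4
  · rw [← h3, sg, ← add_sum_erase univ _ (mem_univ (0 : K))]
    have h0 : lg hj e (0 : K) = 0 := if_pos rfl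
    rw [h0, zero_pow (by norm_num), zero_add]
    refine sum_congr rfl fun x hx => ?_
    rw [mem_erase] at hx
    rw [lg_of_ne hj e hx.1]

omit [IsAlgClosed L] in
/-- the relation given by the absolute value of a Jacobi sum -/
theorem jacobi_seven (hj : 0 < j) {τ : MulChar K L}
    (hτ : orderOf τ = Fintype.card K - 1)
    (hd : 7 ^ j ∣ Fintype.card K - 1) {z : L} (hz : IsPrimitiveRoot z (7 ^ j))
    {e : K → ZMod (7 ^ j)} (hadd : ∀ x y, x ≠ 0 → y ≠ 0 → e (x * y) = e x + e y)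
    (he : ∀ x ≠ 0, ∀ a : ZMod (7 ^ j), ch τ a x = z ^ (a * e x).val) :
    ∑ x, ∑ y, ((lg hj e x + lg hj e (1 - x)) - (lg hj e y + lg hj e (1 - y))) ^ 6 =
      4 * ∑ y, (lg hj e y + lg hj e (1 - y)) ^ 6 - 3 * sg (lg hj e) := by
  have hN : 1 < 7 ^ j := Nat.one_lt_pow hj.ne' (by norm_num)
  have : NeZero (7 ^ j) := ⟨by omega⟩
  have : Fact (1 < 7 ^ j) := ⟨hN⟩
  have hK0 : ((Fintype.card K - 1 : ℕ) : ZMod (7 ^ j)) = 0 := (ZMod.natCast_eq_zero_iff _ _).2 hd
  have hz1 := hz.pow_eq_one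
  set m : K → ZMod 7 := fun x => lg hj e x + lg hj e (1 - x) with hm
  have hl := lg_isLog hj hadd
  have m0 : m 0 = 0 := by
    rw [hm]
    simp only [sub_zero]
    rw [hl.zero, hl.one, add_zero]
  have m1 : m 1 = 0 := by
    rw [hm]
    simp only [sub_self]
    rw [hl.zero, hl.one, add_zero]
  have h1mem : (1 : K) ∈ univ.erase (0 : K) := by
    rw [mem_erase]
    exact ⟨one_ne_zero, mem_univ _⟩
  -- the sum over the elements different from zero and one
  have hsplit : ∀ {M : Type} [AddCommMonoid M] (g : K → M), ∑ x, g x =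
      g 0 + (g 1 + ∑ x ∈ (univ.erase (0 : K)).erase 1, g x) := by
    intro M _ g
    rw [add_sum_erase _ g h1mem, add_sum_erase univ g (mem_univ 0)]
  obtain ⟨a0, a01, a02, a03⟩ := sigma_eq hj hτ hd hz he
  have hS : ∑ x ∈ (univ.erase (0 : K)).erase 1, ∑ y ∈ (univ.erase (0 : K)).erase 1,
      (m x - m y) ^ 6 = -3 * sg (lg hj e) := by
    have hring : ringChar L ≠ ringChar K := by
      rw [ringChar.eq_zero]
      intro h
      have : CharP K 0 := by
        rw [h]
        exact ringChar.charP K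
      have : CharZero K := CharP.charP_to_charZero K
      exact not_injective_infinite_finite (Nat.cast : ℕ → K) Nat.cast_injective
    have hne : ch τ (1 : ZMod (7 ^ j)) ≠ 1 := ch_ne_one hτ (by rw [hK0, zero_mul]) one_ne_zero
    have hne2 : ch τ (1 : ZMod (7 ^ j)) * ch τ (1 : ZMod (7 ^ j)) ≠ 1 := by
      rw [← ch_add hτ (by rw [hK0, zero_mul]) (by rw [hK0, zero_mul])]
      refine ch_ne_one hτ (by rw [hK0, zero_mul]) ?_
      intro h
      have h2 : ((2 : ℕ) : ZMod (7 ^ j)) = 0 := by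
        push_cast
        linear_combination h
      rw [ZMod.natCast_eq_zero_iff] at h2
      have h3 := (dvd_pow_self 7 hj.ne').trans h2
      have := Nat.le_of_dvd (by omega) h3
      omega
    have hJ := jacobiSum_mul_jacobiSum_inv hring hne hne hne2
    have hinv : (ch τ (1 : ZMod (7 ^ j)))⁻¹ = ch τ (-1 : ZMod (7 ^ j)) :=
      (ch_neg hτ (by rw [hK0, zero_mul])).symm
    rw [hinv, jacobiSum, jacobiSum] at hJ
    have hJ' : (∑ x ∈ (univ.erase (0 : K)).erase 1, z ^ (e x + e (1 - x)).val) *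
        (∑ x ∈ (univ.erase (0 : K)).erase 1, z ^ (-(e x + e (1 - x))).val) =
          ((Fintype.card K : ℤ) : L) := by
      have e0 : (1 - 0 : K) = 1 := sub_zero 1
      have e1 : (1 - 1 : K) = 0 := sub_self 1
      rw [hsplit, hsplit (fun x => ch τ (-1 : ZMod (7 ^ j)) x * ch τ (-1 : ZMod (7 ^ j)) (1 - x)),
        map_zero'', map_zero'', zero_mul, zero_mul, zero_add, zero_add, e1, map_zero'',
        map_zero'', mul_zero, mul_zero, zero_add, zero_add] at hJ
      rw [Int.cast_natCast, ← hJ]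
      congr 1
      · refine sum_congr rfl fun x hx => ?_
        rw [mem_erase, mem_erase] at hx
        rw [he x hx.2.1, he _ (sub_ne_zero.2 hx.1.symm), ← pow_val_add hz1, one_mul, one_mul]
      · refine sum_congr rfl fun x hx => ?_
        rw [mem_erase, mem_erase] at hx
        rw [he x hx.2.1, he _ (sub_ne_zero.2 hx.1.symm), ← pow_val_add hz1, neg_one_mul,
          neg_one_mul, ← neg_add]
    obtain ⟨a1, a11, a12, a13⟩ := count_pair hj hz _ _ _ hJ'
    have h6 : ∑ x ∈ (univ.erase (0 : K)).erase 1, ∑ y ∈ (univ.erase (0 : K)).erase 1,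
        (m x - m y) ^ 6 = -(a1 : ZMod 7) := by
      rw [← a13]
      refine sum_congr rfl fun x hx => sum_congr rfl fun y hy => ?_
      rw [mem_erase, mem_erase] at hx hy
      rw [hm]
      simp only
      rw [lg_of_ne hj e hx.2.1, lg_of_ne hj e (sub_ne_zero.2 hx.1.symm), lg_of_ne hj e hy.2.1,
        lg_of_ne hj e (sub_ne_zero.2 hy.1.symm), map_add, map_add]
    rw [h6, a03]
    by_cases hj1 : j = 1
    · have c1 := a01 hj1
      have c2 := a11 hj1
      have c3 : (((univ.erase (0 : K)).erase 1).card : ℤ) = (Fintype.card K : ℤ) - 2 := by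
        rw [card_erase_of_mem h1mem, card_erase_of_mem (mem_univ _), card_univ]
        have h2 : 2 ≤ Fintype.card K := Fintype.one_lt_card
        omega
      rw [c3, c1] at c2
      have c4 : a1 = a0 * (7 * a0 - 3) := by
        have : (7 : ℤ) * a1 = 7 * (a0 * (7 * a0 - 3)) := by linear_combination -c2
        exact mul_left_cancel₀ (by norm_num) this
      rw [c4]
      push_cast
      linear_combination (-(a0 : ZMod 7) ^ 2) * seven
    · rw [a02 hj1, a12 hj1]
      simp
  have hT : ∑ y, m y ^ 6 = ∑ y ∈ (univ.erase (0 : K)).erase 1, m y ^ 6 := by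
    rw [hsplit, m0, m1]
    ring
  have h3 : ∀ x, ∑ y, (m x - m y) ^ 6 = 2 * m x ^ 6 +
      ∑ y ∈ (univ.erase (0 : K)).erase 1, (m x - m y) ^ 6 := by
    intro x
    rw [hsplit, m0, m1]
    ring
  have h4 : ∑ x, ∑ y, (m x - m y) ^ 6 = 4 * ∑ y, m y ^ 6 - 3 * sg (lg hj e) := by
    simp only [h3]
    rw [sum_add_distrib, ← mul_sum]
    rw [hsplit (fun x => ∑ y ∈ (univ.erase (0 : K)).erase 1, (m x - m y) ^ 6), hS, m0, m1]
    have h5 : ∑ y ∈ (univ.erase (0 : K)).erase 1, (0 - m y) ^ 6 =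
        ∑ y ∈ (univ.erase (0 : K)).erase 1, m y ^ 6 := sum_congr rfl fun y _ => by ring
    rw [h5, ← hT]
    ring
  exact h4

omit hr in
/-- the number of points of the complement -/
theorem card_pts : ((pts K).card : ℤ) =
    ((Fintype.card K : ℤ) - 2) * ((Fintype.card K : ℤ) - 3) := by
  have h1mem : (1 : K) ∈ univ.erase (0 : K) := by
    rw [mem_erase]
    exact ⟨one_ne_zero, mem_univ _⟩
  have c3 : (((univ.erase (0 : K)).erase 1).card : ℤ) = (Fintype.card K : ℤ) - 2 := by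
    rw [card_erase_of_mem h1mem, card_erase_of_mem (mem_univ _), card_univ]
    have h2 : 2 ≤ Fintype.card K := Fintype.one_lt_card
    omega
  rw [pts_eq, offDiag_card, Nat.cast_sub (Nat.le_mul_self _)]
  push_cast
  rw [c3]
  ring

end

section

variable {K L : Type} [Field K] [Fintype K] [Field L] [CharZero L] [IsAlgClosed L]
  [hr : Fact (Nat.Prime 7)]

/-- the criterion for exponents of order a power of seven -/
theorem kummer_seven {n c k : ℕ} (hk : 0 < k) (hn : n = c * 7 ^ k) (hn0 : n ≠ 0)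
    {τ : MulChar K L} (hτ : orderOf τ = Fintype.card K - 1)
    (hd : 7 ^ k ∣ Fintype.card K - 1) (v : Fin 5 → ℤ)
    (hD : ((kD (v 0) (v 1) (v 2) (v 3) (v 4) : ℤ) : ZMod 7) ≠ 0) {a : Fin 5 → ZMod n}
    (ha : ∀ i, a i = ((c * v i : ℤ) : ZMod n)) (hdeg : ∀ i, residues a i ≠ 0)
    {l : K → ZMod 7} (hl : ∀ x y, x ≠ 0 → y ≠ 0 → l (x * y) = l x + l y)
    (hB : ∑ x, l x ^ 2 * l (1 - x) ≠ 0) :
    quad (ch τ (a 0)) (ch τ (a 1)) (ch τ (a 2)) (ch τ (a 3)) (ch τ (a 4)) *
      quad (ch τ (a 0))⁻¹ (ch τ (a 1))⁻¹ (ch τ (a 2))⁻¹ (ch τ (a 3))⁻¹ (ch τ (a 4))⁻¹ ≠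
        4 * (Fintype.card K : L) ^ 2 := by
  classical
  have : NeZero n := ⟨hn0⟩
  have hr2 : (7 : ℕ) ≠ 2 := by omega
  have : NeZero (7 ^ k) := ⟨pow_ne_zero k (by norm_num)⟩
  -- the exponents are allowed
  have hok : ∀ w : ℤ, ((Fintype.card K - 1 : ℕ) : ZMod n) * ((c * w : ℤ) : ZMod n) = 0 := by
    intro w
    have h1 : ((c * 7 ^ k : ℕ) : ZMod n) = 0 := by
      rw [← hn]
      exact ZMod.natCast_self n
    obtain ⟨m, hm⟩ := hd
    rw [hm]
    push_cast at h1 ⊢
    linear_combination ((m : ZMod n) * w) * h1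
  -- reduction to the modulus `7 ^ k`
  have hch : ∀ w : ℤ, ch τ ((c * w : ℤ) : ZMod n) = ch τ ((w : ℤ) : ZMod (7 ^ k)) := by
    intro w
    have hc0 : 0 < c := by
      rcases c.eq_zero_or_pos with h0 | h0
      · rw [h0, zero_mul] at hn
        exact absurd hn hn0
      · exact h0
    rw [ch, ch]
    congr 1
    have h3 := val_smul hn hn0 w
    rw [h3]
    conv_lhs => rw [hn]
    rw [mul_left_comm]
    exact Nat.mul_div_mul_left _ _ hc0
  set V : Fin 5 → ZMod (7 ^ k) := fun i => ((v i : ℤ) : ZMod (7 ^ k)) with hV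
  have hdir : ∀ i, ch τ (a i) = ch τ (V i) := by
    intro i
    rw [ha i, hch]
  have hinv : ∀ i, (ch τ (a i))⁻¹ = ch τ ((-V) i) := by
    intro i
    have h3 := hch (-v i)
    rw [← ch_neg hτ (by rw [ha i]; exact hok (v i)), ha i]
    push_cast at h3 ⊢
    rw [← mul_neg, h3]
    rfl
  rw [hdir 0, hdir 1, hdir 2, hdir 3, hdir 4, ← hdir 0, ← hdir 1, ← hdir 2, ← hdir 3, ← hdir 4,
    hinv 0, hinv 1, hinv 2, hinv 3, hinv 4, hdir 0, hdir 1, hdir 2, hdir 3, hdir 4]
  -- the logarithms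
  obtain ⟨z, e, hz, hadd, he, x₀, hx₀, hred⟩ := exists_log hk hτ hd
  have hL := lg_isLog hk hadd
  have hK : (Fintype.card K : ZMod 7) = 1 := by
    have h3 : ((Fintype.card K - 1 : ℕ) : ZMod 7) = 0 :=
      (ZMod.natCast_eq_zero_iff _ _).2 ((dvd_pow_self 7 hk.ne').trans hd)
    rw [Nat.cast_sub Fintype.card_pos, Nat.cast_one] at h3
    linear_combination h3
  have h42 := bs42 hL hK (jacobi_seven hk hτ hd hz hadd he)
  have hb : bs (lg hk e) 2 1 ≠ 0 := by
    obtain ⟨κ, hκ⟩ := proportional (l := lg hk e) (l' := l) hL.mul hl hx₀ (by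
      rwa [lg_of_ne hk e hx₀])
    intro h0
    apply hB
    have h1' : l 1 = 0 := by
      have h := hl 1 1 one_ne_zero one_ne_zero
      rw [mul_one] at h
      linear_combination -h
    have h3 : ∑ x, l x ^ 2 * l (1 - x) = κ ^ 3 * bs (lg hk e) 2 1 := by
      rw [bs, mul_sum]
      refine sum_congr rfl fun x _ => ?_
      by_cases hx : x = 0
      · rw [hx, sub_zero, h1', hL.zero]
        ring
      by_cases hx1 : x = 1
      · rw [hx1, sub_self, h1', hL.zero]
        ring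
      rw [hκ x hx, hκ _ (sub_ne_zero.2 (Ne.symm hx1))]
      ring
    rw [h3, h0, mul_zero]
  have hD' : kD (red 7 k hk (V 0)) (red 7 k hk (V 1)) (red 7 k hk (V 2)) (red 7 k hk (V 3))
      (red 7 k hk (V 4)) ≠ 0 := by
    intro h
    apply hD
    rw [← h]
    simp only [hV, map_intCast]
    exact map_kD (Int.castRingHom (ZMod 7)) _ _ _ _ _
  intro heq
  have q1 := quad_sum hz.pow_eq_one he V
  have q2 : quad (ch τ ((-V) 0)) (ch τ ((-V) 1)) (ch τ ((-V) 2)) (ch τ ((-V) 3))
      (ch τ ((-V) 4)) = ∑ P ∈ pts K, z ^ (-expo e V P).val := by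
    rw [quad_sum hz.pow_eq_one he (-V)]
    refine sum_congr rfl fun P _ => ?_
    congr 2
    simp only [expo, Pi.neg_apply]
    ring
  obtain ⟨a2, a21, a22, a23⟩ := count_pair hk hz (pts K) (expo e V)
    (4 * (Fintype.card K : ℤ) ^ 2) (by
      rw [← q1, ← q2, heq]
      push_cast
      ring)
  have hval : ∀ P ∈ pts K, red 7 k hk (expo e V P) =
      ex (lg hk e) (red 7 k hk (V 0)) (red 7 k hk (V 1)) (red 7 k hk (V 2)) (red 7 k hk (V 3))
        (red 7 k hk (V 4)) P := by
    intro P hP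
    rw [mem_pts] at hP
    obtain ⟨hx0, hx1, hy0, hy1, hxy⟩ := hP
    simp only [expo, ex]
    rw [lg_of_ne hk e hx0, lg_of_ne hk e (sub_ne_zero.2 hx1.symm), lg_of_ne hk e hy0,
      lg_of_ne hk e (sub_ne_zero.2 hy1.symm), lg_of_ne hk e (sub_ne_zero.2 hxy)]
    simp only [map_add, map_mul]
  have h6 : ∑ P ∈ pts K, ∑ Q ∈ pts K, (ex (lg hk e) (red 7 k hk (V 0)) (red 7 k hk (V 1))
      (red 7 k hk (V 2)) (red 7 k hk (V 3)) (red 7 k hk (V 4)) P -
        ex (lg hk e) (red 7 k hk (V 0)) (red 7 k hk (V 1)) (red 7 k hk (V 2)) (red 7 k hk (V 3))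
          (red 7 k hk (V 4)) Q) ^ 6 = -(a2 : ZMod 7) := by
    rw [← a23]
    refine sum_congr rfl fun P hP => sum_congr rfl fun Q hQ => ?_
    rw [hval P hP, hval Q hQ]
  rw [gen_six hL hK h42] at h6
  obtain ⟨a0, a01, a02, a03⟩ := sigma_eq hk hτ hd hz he
  rw [a03] at h6
  have h5 : (5 : ZMod 7) * (bs (lg hk e) 2 1 ^ 2 * kD (red 7 k hk (V 0)) (red 7 k hk (V 1))
      (red 7 k hk (V 2)) (red 7 k hk (V 3)) (red 7 k hk (V 4))) = 0 := by
    by_cases hk1 : k = 1
    · -- the residues are not divisible by seven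
      have hS : sS 6 (red 7 k hk (V 0)) (red 7 k hk (V 1)) (red 7 k hk (V 2)) (red 7 k hk (V 3))
          (red 7 k hk (V 4)) = 10 := by
        have hw : ∀ w : ℤ, ((c * w : ℤ) : ZMod n) ≠ 0 → ((w : ℤ) : ZMod 7) ^ 6 = 1 := by
          intro w hw
          rw [six_pow, if_neg]
          intro h0
          apply hw
          rw [ZMod.intCast_zmod_eq_zero_iff_dvd] at h0 ⊢
          obtain ⟨m, rfl⟩ := h0
          refine ⟨m, ?_⟩
          rw [hn, hk1]
          push_cast
          ring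
        have hres : ∀ i, ((residues v i : ℤ) : ZMod 7) ^ 6 = 1 := by
          intro i
          apply hw
          have h7 := hdeg i
          have h8 : residues a i = ((c * residues v i : ℤ) : ZMod n) := by
            fin_cases i <;> simp [residues, ha] <;> ring
          rwa [h8] at h7
        have e0 := hres 0
        have e1 := hres 1
        have e2 := hres 2
        have e3 := hres 3
        have e4 := hres 4
        have e5 := hres 5
        have e6 := hres 6
        have e7 := hres 7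
        have e8 := hres 8
        have e9 := hres 9
        simp [residues] at e0 e1 e2 e3 e4 e5 e6 e7 e8 e9
        simp only [sS, hV, map_intCast]
        linear_combination e0 + e1 + e2 + e3 + e4 + e5 + e6 + e7 + e8 + e9
      rw [hS] at h6
      have c0 := a01 hk1
      have c2 := a21 hk1
      rw [card_pts, c0] at c2
      have c4 : a2 = a0 * (7 * a0 - 5) * (49 * a0 ^ 2 - 7 * a0 + 4) := by
        have : (7 : ℤ) * a2 = 7 * (a0 * (7 * a0 - 5) * (49 * a0 ^ 2 - 7 * a0 + 4)) := by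
          linear_combination -c2
        exact mul_left_cancel₀ (by norm_num) this
      rw [c4] at h6
      push_cast at h6
      linear_combination h6 + (20 * (a0 : ZMod 7) -
        ((a0 : ZMod 7) ^ 2 * (49 * (a0 : ZMod 7) ^ 2 - 7 * (a0 : ZMod 7) + 4) -
          5 * (a0 : ZMod 7) * (7 * (a0 : ZMod 7) ^ 2 - (a0 : ZMod 7)))) * seven
    · rw [a02 hk1, a22 hk1] at h6
      simp only [Int.cast_zero, neg_zero, zero_mul, mul_zero, add_zero] at h6
      exact h6
  rcases mul_eq_zero.1 h5 with h7 | h7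
  · exact five_ne h7
  · exact mul_ne_zero (pow_ne_zero 2 hb) hD' h7

end

end Pool.Agent.Helper44.KM
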