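import Pool.Agent.Helper79.KM.Full
import Pool.Agent.Helper79.KM.Pair

/-!
# The moments of the logarithms modulo seven

The sum `σ` of the sixth powers of the logarithms is not zero if the exponents are taken modulo
`7`; it enters all sixth moments.
-/

open Finset

namespace Pool.Agent.Helper44.KM

open Pool.Agent.Helper79.KM

theorem seven : (7 : ZMod 7) = 0 := by
  have := ZMod.natCast_self 7
  exact_mod_cast this

section

variable {K : Type*} [Field K] [Fintype K] {l : K → ZMod 7}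

/-- the sum of the sixth powers -/
def sg (l : K → ZMod 7) : ZMod 7 := ∑ x, l x ^ 6

theorem sg' : ∑ x, l (1 - x) ^ 6 = sg l := by
  rw [sum_one_sub (fun x => l x ^ 6), sg]

variable [hr : Fact (Nat.Prime 7)] (hl : IsLog l)

include hl

theorem bs51 : bs l 5 1 = 4 * sg l := by
  have h1 := bs_inv (by omega : (7 : ℕ) ≠ 2) hl (show 0 < 5 by omega) 1
  have h3 : ∑ x, (-l x) ^ 5 * (l (1 - x) - l x) ^ 1 = -bs l 5 1 + sg l := by
    rw [bs, sg, ← sum_neg_distrib, ← sum_add_distrib]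
    exact sum_congr rfl fun x _ => by ring
  rw [h3] at h1
  linear_combination 4 * h1 - bs l 5 1 * seven

theorem bs33 : bs l 3 3 = 5 * bs l 4 2 + 5 * sg l := by
  have h1 := bs_inv (by omega : (7 : ℕ) ≠ 2) hl (show 0 < 3 by omega) 3
  have h3 : ∑ x, (-l x) ^ 3 * (l (1 - x) - l x) ^ 3 =
      -bs l 3 3 + 3 * bs l 4 2 - 3 * bs l 5 1 + sg l := by
    simp only [bs, sg, mul_sum, ← sum_neg_distrib, ← sum_add_distrib, ← sum_sub_distrib]
    exact sum_congr rfl fun x _ => by ring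
  rw [h3, bs51 hl] at h1
  linear_combination 4 * h1 + (-bs l 3 3 + bs l 4 2 - 7 * sg l) * seven

theorem one_moments : ∑ x, (l x + l (1 - x)) ^ 1 = 0 ∧ ∑ x, (l x + l (1 - x)) ^ 2 = 0 ∧
    ∑ x, (l x + l (1 - x)) ^ 3 = 6 * bs l 2 1 ∧ ∑ x, (l x + l (1 - x)) ^ 4 = 0 ∧
      ∑ x, (l x + l (1 - x)) ^ 6 = 4 * bs l 4 2 + 3 * sg l := by
  have hr2 : (7 : ℕ) ≠ 2 := by omega
  refine ⟨?_, ?_, ?_, ?_, ?_⟩
  · have h1 : ∑ x, (l x + l (1 - x)) ^ 1 = ∑ x, l x ^ 1 + ∑ x, l (1 - x) ^ 1 := by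
      rw [← sum_add_distrib]
      exact sum_congr rfl fun x _ => by ring
    rw [h1, sum_pow_log hl 1 (by omega) (by omega), sum_pow_log' hl (by omega) (by omega),
      add_zero]
  · have h1 : ∑ x, (l x + l (1 - x)) ^ 2 = ∑ x, l x ^ 2 + ∑ x, l (1 - x) ^ 2 +
        2 * bs l 1 1 := by
      simp only [bs, mul_sum, ← sum_add_distrib]
      exact sum_congr rfl fun x _ => by ring
    rw [h1, sum_pow_log hl 2 (by omega) (by omega), sum_pow_log' hl (by omega) (by omega),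
      bs11 hr2 hl (by omega)]
    ring
  · have h1 : ∑ x, (l x + l (1 - x)) ^ 3 = ∑ x, l x ^ 3 + ∑ x, l (1 - x) ^ 3 +
        3 * bs l 2 1 + 3 * bs l 1 2 := by
      simp only [bs, mul_sum, ← sum_add_distrib]
      exact sum_congr rfl fun x _ => by ring
    rw [h1, sum_pow_log hl 3 (by omega) (by omega), sum_pow_log' hl (by omega) (by omega),
      bs_comm 1 2]
    ring
  · have h1 : ∑ x, (l x + l (1 - x)) ^ 4 = ∑ x, l x ^ 4 + ∑ x, l (1 - x) ^ 4 +
        4 * bs l 3 1 + 6 * bs l 2 2 + 4 * bs l 1 3 := by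
      simp only [bs, mul_sum, ← sum_add_distrib]
      exact sum_congr rfl fun x _ => by ring
    rw [h1, sum_pow_log hl 4 (by omega) (by omega), sum_pow_log' hl (by omega) (by omega),
      bs_comm 1 3, bs31 hr2 hl (by omega), bs22 hr2 hl (by omega)]
    ring
  · have h1 : ∑ x, (l x + l (1 - x)) ^ 6 = sg l + ∑ x, l (1 - x) ^ 6 +
        6 * bs l 5 1 + 15 * bs l 4 2 + 20 * bs l 3 3 + 15 * bs l 2 4 + 6 * bs l 1 5 := by
      simp only [bs, sg, mul_sum, ← sum_add_distrib]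
      exact sum_congr rfl fun x _ => by ring
    rw [h1, sg', bs_comm 1 5, bs_comm 2 4, bs51 hl, bs33 hl]
    linear_combination (18 * bs l 4 2 + 21 * sg l) * seven

variable (hK : (Fintype.card K : ZMod 7) = 1)

include hK

/-- the relation given by the absolute value of a Jacobi sum -/
theorem bs42 (h : ∑ x, ∑ y, ((l x + l (1 - x)) - (l y + l (1 - y))) ^ 6 =
    4 * ∑ y, (l y + l (1 - y)) ^ 6 - 3 * sg l) : bs l 4 2 = -6 * bs l 2 1 ^ 2 + 4 * sg l := by
  obtain ⟨h1, h2, h3, h4, h6⟩ := one_moments hl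
  rw [six, h1, h2, h3, h4, h6] at h
  simp only [pow_zero, sum_const, card_univ, nsmul_eq_mul, mul_one, hK] at h
  linear_combination -h + (-bs l 4 2 - 102 * bs l 2 1 ^ 2 - sg l) * seven

end

section

variable {K : Type*} [Field K] [Fintype K] [DecidableEq K] {l : K → ZMod 7}
  [hr : Fact (Nat.Prime 7)] (hl : IsLog l)

include hl

theorem om_one (a b : ZMod 7) : om l a b 1 = 0 := by
  rw [om_pos hl a b one_pos]
  have h1 : ∑ x, (a * l x + b * l (1 - x)) ^ 1 = a * ∑ x, l x ^ 1 + b * ∑ x, l (1 - x) ^ 1 := by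
    simp only [mul_sum, ← sum_add_distrib]
    exact sum_congr rfl fun x _ => by ring
  rw [h1, sum_pow_log hl 1 (by omega) (by omega), sum_pow_log' hl (by omega) (by omega)]
  ring

theorem om_two (a b : ZMod 7) : om l a b 2 = 0 := by
  rw [om_pos hl a b two_pos]
  have h1 : ∑ x, (a * l x + b * l (1 - x)) ^ 2 = a ^ 2 * ∑ x, l x ^ 2 +
      b ^ 2 * ∑ x, l (1 - x) ^ 2 + 2 * a * b * bs l 1 1 := by
    simp only [bs, mul_sum, ← sum_add_distrib]
    exact sum_congr rfl fun x _ => by ring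
  rw [h1, sum_pow_log hl 2 (by omega) (by omega), sum_pow_log' hl (by omega) (by omega),
    bs11 (by omega) hl (by omega)]
  ring

theorem om_three (a b : ZMod 7) :
    om l a b 3 = 3 * (a * b * (a + b)) * bs l 2 1 := by
  rw [om_pos hl a b (by omega)]
  have h1 : ∑ x, (a * l x + b * l (1 - x)) ^ 3 = a ^ 3 * ∑ x, l x ^ 3 +
      b ^ 3 * ∑ x, l (1 - x) ^ 3 + 3 * a ^ 2 * b * bs l 2 1 + 3 * a * b ^ 2 * bs l 1 2 := by
    simp only [bs, mul_sum, ← sum_add_distrib]
    exact sum_congr rfl fun x _ => by ring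
  rw [h1, sum_pow_log hl 3 (by omega) (by omega), sum_pow_log' hl (by omega) (by omega),
    bs_comm 1 2]
  ring

theorem om_four (a b : ZMod 7) : om l a b 4 = 0 := by
  rw [om_pos hl a b (by omega)]
  have h1 : ∑ x, (a * l x + b * l (1 - x)) ^ 4 = a ^ 4 * ∑ x, l x ^ 4 +
      b ^ 4 * ∑ x, l (1 - x) ^ 4 + 4 * a ^ 3 * b * bs l 3 1 + 6 * a ^ 2 * b ^ 2 * bs l 2 2 +
        4 * a * b ^ 3 * bs l 1 3 := by
    simp only [bs, mul_sum, ← sum_add_distrib]
    exact sum_congr rfl fun x _ => by ring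
  rw [h1, sum_pow_log hl 4 (by omega) (by omega), sum_pow_log' hl (by omega) (by omega),
    bs_comm 1 3, bs31 (by omega) hl (by omega), bs22 (by omega) hl (by omega)]
  ring

theorem om_six (h42 : bs l 4 2 = -6 * bs l 2 1 ^ 2 + 4 * sg l) (a b : ZMod 7) :
    om l a b 6 = -90 * (a * b * (a + b)) ^ 2 * bs l 2 1 ^ 2 -
      3 * sg l * (a ^ 6 + b ^ 6 + (a + b) ^ 6) := by
  rw [om_pos hl a b (by omega)]
  have h1 : ∑ x, (a * l x + b * l (1 - x)) ^ 6 = a ^ 6 * sg l +
      b ^ 6 * ∑ x, l (1 - x) ^ 6 + 6 * a ^ 5 * b * bs l 5 1 + 15 * a ^ 4 * b ^ 2 * bs l 4 2 +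
        20 * a ^ 3 * b ^ 3 * bs l 3 3 + 15 * a ^ 2 * b ^ 4 * bs l 2 4 +
          6 * a * b ^ 5 * bs l 1 5 := by
    simp only [bs, sg, mul_sum, ← sum_add_distrib]
    exact sum_congr rfl fun x _ => by ring
  rw [h1, sg', bs_comm 1 5, bs_comm 2 4, bs51 hl, bs33 hl, h42]
  linear_combination (sg l * (a ^ 6 + b ^ 6 + 6 * a ^ 5 * b + 15 * a ^ 4 * b ^ 2 +
    80 * a ^ 3 * b ^ 3 + 15 * a ^ 2 * b ^ 4 + 6 * a * b ^ 5) -
      60 * a ^ 3 * b ^ 3 * bs l 2 1 ^ 2) * seven

variable (hK : (Fintype.card K : ZMod 7) = 1)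

/-- the values of the moments for the exponents -/
structure Good (l : K → ZMod 7) (a b c d e : ZMod 7) : Prop where
  one : mo l a b c d e 1 = 0
  two : mo l a b c d e 2 = 0
  three : mo l a b c d e 3 = bs l 2 1 * sS 3 a b c d e
  six : 4 * mo l a b c d e 6 = 15 * (bs l 2 1 ^ 2 * sG a b c d e) + 12 * (sg l * sS 6 a b c d e)

include hK

theorem good_zero (h42 : bs l 4 2 = -6 * bs l 2 1 ^ 2 + 4 * sg l) (a b c d : ZMod 7) :
    Good l a b c d 0 := by
  refine ⟨?_, ?_, ?_, ?_⟩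
  · rw [mo_zero_last]
    simp only [sum_range_succ, range_zero, sum_empty, om_zero hK, om_one hl]
    ring
  · rw [mo_zero_last]
    simp only [sum_range_succ, range_zero, sum_empty, om_zero hK, om_one hl, om_two hl]
    ring
  · rw [mo_zero_last, sS3_zero]
    simp only [sum_range_succ, range_zero, sum_empty, Nat.sub_zero, Nat.sub_self,
      show 3 - 1 = 2 from rfl, show 3 - 2 = 1 from rfl, om_zero hK, om_one hl, om_two hl,
      om_three hl, mul_zero, add_zero, zero_add, Nat.choose_self,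
      Nat.choose_zero_right, Nat.cast_one]
    ring
  · rw [mo_zero_last, sG_zero]
    simp only [sum_range_succ, range_zero, sum_empty, Nat.sub_zero, Nat.sub_self,
      show 6 - 1 = 5 from rfl, show 6 - 2 = 4 from rfl, show 6 - 3 = 3 from rfl,
      show 6 - 4 = 2 from rfl, show 6 - 5 = 1 from rfl,
      om_zero hK, om_one hl, om_two hl, om_three hl, om_four hl,
      om_six hl h42, zero_mul, mul_zero, add_zero, zero_add, Nat.choose_self,
      Nat.choose_zero_right, Nat.cast_one, show (Nat.choose 6 3 : ℕ) = 20 from rfl,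
      Nat.cast_ofNat, sS]
    ring

end

end Pool.Agent.Helper44.KM
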