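import Pool.Agent.Helper44.KM.Cyc

/-!
# Sums of products of logarithms modulo three
-/

open Finset

namespace Pool.Agent.Helper44.KM

open Pool.Agent.Helper79.KM

theorem sum_zmod_three {M : Type*} [AddCommMonoid M] (f : ZMod 3 → M) :
    ∑ x, f x = f 0 + f 1 + f 2 := Fin.sum_univ_three f

theorem one_ne_three : (1 : ZMod 3) ≠ 0 := by decide

theorem three_rel {n0 u v d w M0 M1 M2 : ℤ} (r0 : n0 = w - 1 - u - v) (r1 : d = w - u - v)
    (m0 : M0 = n0 + 2 * d) (m1 : M1 = 3 * u) (m2 : M2 = 3 * v)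
    (h : M0 * M0 + M1 * M1 + M2 * M2 = M1 * M0 + M2 * M1 + M0 * M2 + (3 * w + 1)) :
    d = w ^ 2 + 3 * d ^ 2 - 3 * w * d - 3 * u * v := by
  subst m0 m1 m2 r0
  have h1 : 9 * d = 9 * (w ^ 2 + 3 * d ^ 2 - 3 * w * d - 3 * u * v) := by
    subst r1
    linear_combination -h
  exact mul_left_cancel₀ (by norm_num) h1

section

variable {K : Type*} [Field K] [Fintype K] [DecidableEq K] {l : K → ZMod 3}

theorem bz_cy (a b : ℕ) : bz l a b = ∑ i, ∑ j, (cy l i j : ZMod 3) * (i ^ a * j ^ b) :=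
  sum_cy (K := K) (l := l) (fun i j => i ^ a * j ^ b)

/-- the polynomial in the four logarithms -/
theorem lo_three [hr : Fact (Nat.Prime 3)] (hl : IsLog l) : al l 2 2 =
    lo l (fun a b c d _ => a ^ 2 * b ^ 2 * c ^ 0 * d ^ 0) +
    lo l (fun a b c d _ => a ^ 1 * b ^ 2 * c ^ 1 * d ^ 0) +
    lo l (fun a b c d _ => a ^ 1 * b ^ 2 * c ^ 0 * d ^ 1) +
    lo l (fun a b c d _ => a ^ 2 * b ^ 1 * c ^ 1 * d ^ 0) +
    lo l (fun a b c d _ => a ^ 1 * b ^ 1 * c ^ 2 * d ^ 0) +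
    lo l (fun a b c d _ => a ^ 1 * b ^ 1 * c ^ 1 * d ^ 1) +
    lo l (fun a b c d _ => a ^ 2 * b ^ 0 * c ^ 2 * d ^ 0) +
    lo l (fun a b c d _ => a ^ 1 * b ^ 0 * c ^ 3 * d ^ 0) +
    lo l (fun a b c d _ => a ^ 1 * b ^ 0 * c ^ 2 * d ^ 1) := by
  have h2 : (3 : ℕ) ≠ 2 := by norm_num
  have h3 : (3 : ZMod 3) = 0 := by
    have := ZMod.natCast_self 3
    exact_mod_cast this
  have h0 : al l 2 2 = lo l (fun a b c d e => (a - b - c + d) ^ 2 * e ^ 2) := by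
    rw [al, lo]
    refine sum_congr rfl fun P _ => ?_
    simp only [lam, dif]
    congr 2
    ring
  have key : lo l (fun a b c d e => (a - b - c + d) ^ 2 * e ^ 2) =
      lo l (fun a _ _ _ e => a ^ 2 * e ^ 2) + lo l (fun _ b _ _ e => b ^ 2 * e ^ 2) +
      lo l (fun _ _ c _ e => c ^ 2 * e ^ 2) + lo l (fun _ _ _ d e => d ^ 2 * e ^ 2) -
      2 * lo l (fun a b _ _ e => a * b * e ^ 2) - 2 * lo l (fun _ _ c d e => c * d * e ^ 2) -
      2 * lo l (fun a _ c _ e => a * c * e ^ 2) - 2 * lo l (fun _ b _ d e => b * d * e ^ 2) +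
      2 * lo l (fun a _ _ d e => a * d * e ^ 2) + 2 * lo l (fun _ b c _ e => b * c * e ^ 2) := by
    simp only [lo, mul_sum, ← sum_add_distrib, ← sum_sub_distrib]
    exact sum_congr rfl fun P _ => by ring
  have a1 : lo l (fun a _ _ _ e => a ^ 2 * e ^ 2) = lo l (fun _ b _ _ e => b ^ 2 * e ^ 2) :=
    lo_zeroOne h2 hl _
  have a2 : lo l (fun a _ _ _ e => a ^ 2 * e ^ 2) = lo l (fun _ _ c _ e => c ^ 2 * e ^ 2) :=
    lo_swap h2 hl _
  have a3 : lo l (fun _ _ c _ e => c ^ 2 * e ^ 2) = lo l (fun _ _ _ d e => d ^ 2 * e ^ 2) :=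
    lo_zeroOne h2 hl _
  have a4 : lo l (fun a b _ _ e => a * b * e ^ 2) = lo l (fun _ _ c d e => c * d * e ^ 2) :=
    lo_swap h2 hl _
  have a5 : lo l (fun a _ c _ e => a * c * e ^ 2) = lo l (fun _ b _ d e => b * d * e ^ 2) :=
    lo_zeroOne h2 hl _
  have a6 : lo l (fun a _ _ d e => a * d * e ^ 2) = lo l (fun _ b c _ e => b * c * e ^ 2) :=
    lo_zeroOne h2 hl _
  have b1 : lo l (fun a _ _ _ e => a ^ 2 * e ^ 2) =
      lo l (fun a b c _ _ => (a - c) ^ 2 * (b - c) ^ 2) := lo_oneY h2 hl _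
  have b2 : lo l (fun _ _ c d e => c * d * e ^ 2) =
      lo l (fun _ b c d _ => -c * (d - c) * (b - c) ^ 2) := lo_oneY h2 hl _
  have b3 : lo l (fun a _ c _ e => a * c * e ^ 2) =
      lo l (fun a b c _ _ => (a - c) * -c * (b - c) ^ 2) := lo_oneY h2 hl _
  have b4 : lo l (fun a _ _ d e => a * d * e ^ 2) =
      lo l (fun a b c d _ => (a - c) * (d - c) * (b - c) ^ 2) := lo_oneY h2 hl _
  have fin : 4 * lo l (fun a b c _ _ => (a - c) ^ 2 * (b - c) ^ 2) -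
      4 * lo l (fun _ b c d _ => -c * (d - c) * (b - c) ^ 2) -
      4 * lo l (fun a b c _ _ => (a - c) * -c * (b - c) ^ 2) +
      4 * lo l (fun a b c d _ => (a - c) * (d - c) * (b - c) ^ 2) =
    lo l (fun a b c d _ => a ^ 2 * b ^ 2 * c ^ 0 * d ^ 0) +
    lo l (fun a b c d _ => a ^ 1 * b ^ 2 * c ^ 1 * d ^ 0) +
    lo l (fun a b c d _ => a ^ 1 * b ^ 2 * c ^ 0 * d ^ 1) +
    lo l (fun a b c d _ => a ^ 2 * b ^ 1 * c ^ 1 * d ^ 0) +
    lo l (fun a b c d _ => a ^ 1 * b ^ 1 * c ^ 2 * d ^ 0) +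
    lo l (fun a b c d _ => a ^ 1 * b ^ 1 * c ^ 1 * d ^ 1) +
    lo l (fun a b c d _ => a ^ 2 * b ^ 0 * c ^ 2 * d ^ 0) +
    lo l (fun a b c d _ => a ^ 1 * b ^ 0 * c ^ 3 * d ^ 0) +
    lo l (fun a b c d _ => a ^ 1 * b ^ 0 * c ^ 2 * d ^ 1) := by
    simp only [lo, mul_sum, ← sum_add_distrib, ← sum_sub_distrib]
    refine sum_congr rfl fun P _ => ?_
    generalize l P.1 = a
    generalize l (1 - P.1) = b
    generalize l P.2 = c
    generalize l (1 - P.2) = d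
    linear_combination (a ^ 2 * b ^ 2 - 3 * a * b ^ 2 * c + a * b ^ 2 * d - 3 * a ^ 2 * b * c +
      5 * a * b * c ^ 2 - 3 * a * b * c * d + a ^ 2 * c ^ 2 - 3 * a * c ^ 3 + a * c ^ 2 * d) * h3
  rw [h0, key, ← fin, ← b1, ← b2, ← b3, ← b4]
  linear_combination (-1 : ZMod 3) * a1 - 2 * a2 - a3 - 2 * a4 + 2 * a5 - 2 * a6

/-- the sum of the products of the squares of the two logarithms -/
theorem al_three [hr : Fact (Nat.Prime 3)] (hl : IsLog l) (h0 : ∃ x, l x ≠ 0) {w : ℕ}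
    (hw : Fintype.card K = 3 * w + 1) : al l 2 2 = 0 := by
  have h2 : (3 : ℕ) ≠ 2 := by norm_num
  have h3 : (3 : ZMod 3) = 0 := by
    have := ZMod.natCast_self 3
    exact_mod_cast this
  have n10 : cy l 1 0 = cy l 0 1 := cy_comm 1 0
  have n20 : cy l 2 0 = cy l 0 2 := cy_comm 2 0
  have n22 : cy l 2 2 = cy l 0 1 := (cy_inv h2 hl 1 0).symm.trans n10
  have n11 : cy l 1 1 = cy l 0 2 := (cy_inv h2 hl 2 0).symm.trans n20
  have n21 : cy l 2 1 = cy l 1 2 := cy_comm 2 1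
  have r0 := row_cy hl h0 hw 0
  have r1 := row_cy hl h0 hw 1
  rw [sum_zmod_three, if_pos rfl] at r0
  rw [sum_zmod_three, if_neg one_ne_three, n10, n11] at r1
  have s0 : cy l 0 0 = w - 1 - cy l 0 1 - cy l 0 2 := by linear_combination r0
  have s1 : cy l 1 2 = w - cy l 0 1 - cy l 0 2 := by linear_combination r1
  have m0 : mv l 0 = cy l 0 0 + 2 * cy l 1 2 := by
    have h : mv l 0 = cy l 0 0 + cy l 1 2 + cy l 2 1 := (mv_eq 0).trans (sum_zmod_three _)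
    linear_combination h + n21
  have m1 : mv l 1 = 3 * cy l 0 1 := by
    have h : mv l 1 = cy l 0 1 + cy l 1 0 + cy l 2 2 := (mv_eq 1).trans (sum_zmod_three _)
    linear_combination h + n10 + n22
  have m2 : mv l 2 = 3 * cy l 0 2 := by
    have h : mv l 2 = cy l 0 2 + cy l 1 1 + cy l 2 0 := (mv_eq 2).trans (sum_zmod_three _)
    linear_combination h + n11 + n20
  have J := mv_rel h2 hl h0 one_ne_three
  have e0 : ∑ k, mv l k * mv l k = mv l 0 * mv l 0 + mv l 1 * mv l 1 + mv l 2 * mv l 2 :=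
    sum_zmod_three _
  have e1 : ∑ k, mv l (k + 1) * mv l k = mv l 1 * mv l 0 + mv l 2 * mv l 1 + mv l 0 * mv l 2 :=
    sum_zmod_three _
  rw [e0, e1, hw] at J
  push_cast at J
  have k1 := congrArg (Int.cast (R := ZMod 3)) (three_rel s0 s1 m0 m1 m2 J)
  push_cast at k1
  have c := fun {x y : ℤ} (h : x = y) => congrArg (Int.cast (R := ZMod 3)) h
  have c10 := c n10
  have c20 := c n20
  have c22 := c n22
  have c11 := c n11
  have c21 := c n21
  have c0 := c s0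
  have c1 := c s1
  push_cast at c10 c20 c22 c11 c21 c0 c1
  have val : ∀ a b : ℕ, bz l a b =
      (cy l 0 0 : ZMod 3) * (0 ^ a * 0 ^ b) + (cy l 0 1 : ZMod 3) * (0 ^ a * 1 ^ b) +
      (cy l 0 2 : ZMod 3) * (0 ^ a * 2 ^ b) + (cy l 0 1 : ZMod 3) * (1 ^ a * 0 ^ b) +
      (cy l 0 2 : ZMod 3) * (1 ^ a * 1 ^ b) + (cy l 1 2 : ZMod 3) * (1 ^ a * 2 ^ b) +
      (cy l 0 2 : ZMod 3) * (2 ^ a * 0 ^ b) + (cy l 1 2 : ZMod 3) * (2 ^ a * 1 ^ b) +
      (cy l 0 1 : ZMod 3) * (2 ^ a * 2 ^ b) := by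
    intro a b
    rw [bz_cy, sum_zmod_three, sum_zmod_three, sum_zmod_three, sum_zmod_three, c10, c11, c20,
      c21, c22]
    ring
  rw [lo_three hl]
  simp only [lo_four, val]
  rw [c0, c1]
  rw [c1] at k1
  generalize (cy l 0 1 : ZMod 3) = U at k1 ⊢
  generalize (cy l 0 2 : ZMod 3) = V at k1 ⊢
  generalize (w : ZMod 3) = W at k1 ⊢
  linear_combination -k1 + ((-1) * (U ^ 2) + (-1) * (U * V) + (17) * (U * W) + (-19) * (U) +
    (2) * (V ^ 2) + (-39) * (V * W) + (21) * (V) + (61) * (W ^ 2) + (-35) * (W)) * h3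

end

end Pool.Agent.Helper44.KM
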