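import Pool.Agent.Helper44.KM.Three
import Pool.Agent.Helper79.KM.Kummer

/-!
# The covers of exponent three
-/

open Finset

namespace Pool.Agent.Helper44.KM

open Pool.Agent.Helper79.KM Pool.Agent.Helper73.LF Pool.Agent.Helper73.QC

section

variable {K L : Type} [Field K] [Fintype K] [DecidableEq K] [Field L] [CharZero L] [IsAlgClosed L]

/-- the logarithm belonging to a character, for an exponent of prime order -/
theorem exists_log_one {r : ℕ} [hr : Fact r.Prime] {τ : MulChar K L}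
    (hτ : orderOf τ = Fintype.card K - 1) (hd : r ∣ Fintype.card K - 1) :
    ∃ (z : L) (l : K → ZMod r), IsPrimitiveRoot z r ∧ IsLog l ∧ (∃ x, l x ≠ 0) ∧
      ∀ v : Fin 5 → ZMod r,
        quad (ch τ (v 0)) (ch τ (v 1)) (ch τ (v 2)) (ch τ (v 3)) (ch τ (v 4)) =
          ∑ P ∈ pts K, z ^ (expo l v P).val := by
  have key : ∃ (z : L) (l : K → ZMod (r ^ 1)), IsPrimitiveRoot z (r ^ 1) ∧ IsLog l ∧
      (∃ x, l x ≠ 0) ∧ ∀ v : Fin 5 → ZMod (r ^ 1),
        quad (ch τ (v 0)) (ch τ (v 1)) (ch τ (v 2)) (ch τ (v 3)) (ch τ (v 4)) =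
          ∑ P ∈ pts K, z ^ (expo l v P).val := by
    obtain ⟨z, e, hz, hadd, he, x₀, hx₀, hred⟩ := exists_log (r := r) (j := 1) one_pos hτ
      (by rwa [pow_one])
    refine ⟨z, fun x => if x = 0 then 0 else e x, hz, ⟨if_pos rfl, fun x y hx hy => ?_⟩,
      ⟨x₀, ?_⟩, fun v => ?_⟩
    · rw [if_neg hx, if_neg hy, if_neg (mul_ne_zero hx hy), hadd x y hx hy]
    · change (if x₀ = 0 then 0 else e x₀) ≠ 0
      rw [if_neg hx₀]
      intro h
      apply hred
      rw [h, map_zero]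
    · refine quad_sum hz.pow_eq_one (fun x hx a => ?_) v
      rw [he x hx a, if_neg hx]
  rwa [pow_one] at key

end

theorem neg_one_three : (-1 : ZMod 3) = 2 := by decide

theorem neg_one_ne_three : (-1 : ZMod 3) ≠ 0 := by decide

theorem sub_three : (0 - 0 : ZMod 3) = 0 ∧ (0 - 1 : ZMod 3) = 2 ∧ (0 - 2 : ZMod 3) = 1 ∧
    (1 - 0 : ZMod 3) = 1 ∧ (1 - 1 : ZMod 3) = 0 ∧ (1 - 2 : ZMod 3) = 2 ∧ (2 - 0 : ZMod 3) = 2 ∧
      (2 - 1 : ZMod 3) = 1 ∧ (2 - 2 : ZMod 3) = 0 := by decide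

theorem val_three : ∀ s : ZMod 3, s ≠ 0 → (s * 0).val = 0 ∧ (s * 1).val + (s * 2).val = 3 ∧
    ((s * 1).val = 1 ∨ (s * 1).val = 2) := by decide

section

variable {v b c : Fin 5 → ZMod 3}

theorem step_xy (h : Permuted v b) (e : ![b 2, b 3, b 0, b 1, b 4] = c) : Permuted v c :=
  e ▸ Permuted.xy b h

theorem step_zeroOne (h : Permuted v b) (e : ![b 1, b 0, b 3, b 2, b 4] = c) : Permuted v c :=
  e ▸ Permuted.zeroOne b h

theorem step_zeroInf (h : Permuted v b)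
    (e : ![-(b 0 + b 1 + b 4), b 1, -(b 2 + b 3 + b 4), b 3, b 4] = c) : Permuted v c :=
  e ▸ Permuted.zeroInf b h

theorem step_oneY (h : Permuted v b)
    (e : ![b 0, b 4, -(b 0 + b 1 + b 2 + b 3 + b 4), b 3, b 1] = c) : Permuted v c :=
  e ▸ Permuted.oneY b h

end

theorem list_three : ∀ x : Fin 5 → ZMod 3, (∀ i, residues x i ≠ 0) →
    x = ![1, 2, 2, 1, 2] ∨ x = ![2, 1, 1, 2, 2] ∨ x = ![1, 2, 1, 1, 2] ∨ x = ![1, 1, 1, 2, 2] ∨
      x = ![2, 2, 1, 2, 1] ∨ x = ![2, 1, 1, 1, 2] ∨ x = ![1, 1, 2, 1, 2] ∨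
        x = ![1, 2, 2, 2, 1] ∨ x = ![2, 2, 2, 1, 1] ∨ x = ![1, 2, 2, 1, 1] ∨
          x = ![2, 1, 2, 2, 1] ∨ x = ![2, 1, 1, 2, 1] := by
  decide +kernel

theorem perm_three {a : Fin 5 → ZMod 3} (ha : ∀ i, residues a i ≠ 0) :
    Permuted (planeVec (1 : ZMod 3) 1) a := by
  have v0 : Permuted (planeVec (1 : ZMod 3) 1) ![1, 2, 2, 1, 2] := by
    have h : (![1, 2, 2, 1, 2] : Fin 5 → ZMod 3) = planeVec 1 1 := by decide
    rw [h]
    exact Permuted.refl
  have v1 : Permuted (planeVec (1 : ZMod 3) 1) ![2, 1, 1, 2, 2] :=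
    step_xy v0 (by decide)
  have v2 : Permuted (planeVec (1 : ZMod 3) 1) ![1, 2, 1, 1, 2] :=
    step_zeroInf v0 (by decide)
  have v3 : Permuted (planeVec (1 : ZMod 3) 1) ![1, 1, 1, 2, 2] :=
    step_zeroInf v1 (by decide)
  have v4 : Permuted (planeVec (1 : ZMod 3) 1) ![2, 2, 1, 2, 1] :=
    step_oneY v1 (by decide)
  have v5 : Permuted (planeVec (1 : ZMod 3) 1) ![2, 1, 1, 1, 2] :=
    step_zeroOne v2 (by decide)
  have v6 : Permuted (planeVec (1 : ZMod 3) 1) ![1, 1, 2, 1, 2] :=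
    step_zeroOne v3 (by decide)
  have v7 : Permuted (planeVec (1 : ZMod 3) 1) ![1, 2, 2, 2, 1] :=
    step_oneY v3 (by decide)
  have v8 : Permuted (planeVec (1 : ZMod 3) 1) ![2, 2, 2, 1, 1] :=
    step_zeroOne v4 (by decide)
  have v9 : Permuted (planeVec (1 : ZMod 3) 1) ![1, 2, 2, 1, 1] :=
    step_oneY v6 (by decide)
  have v10 : Permuted (planeVec (1 : ZMod 3) 1) ![2, 1, 2, 2, 1] :=
    step_zeroOne v7 (by decide)
  have v11 : Permuted (planeVec (1 : ZMod 3) 1) ![2, 1, 1, 2, 1] :=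
    step_xy v9 (by decide)
  rcases list_three a ha with h | h | h | h | h | h | h | h | h | h | h | h <;> rw [h] <;>
    assumption

section

variable {K L : Type} [Field K] [Fintype K] [Field L] [CharZero L] [IsAlgClosed L]

theorem three_ne (hK : Fintype.card K % 3 = 1) (hK9 : Fintype.card K % 9 ≠ 1)
    {τ : MulChar K L} (hτ : orderOf τ = Fintype.card K - 1) {a : Fin 5 → ZMod 3}
    (ha : ∀ i, residues a i ≠ 0) :
    quad (ch τ (a 0)) (ch τ (a 1)) (ch τ (a 2)) (ch τ (a 3)) (ch τ (a 4)) *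
      quad (ch τ (a 0))⁻¹ (ch τ (a 1))⁻¹ (ch τ (a 2))⁻¹ (ch τ (a 3))⁻¹ (ch τ (a 4))⁻¹ ≠
        4 * (Fintype.card K : L) ^ 2 := by
  classical
  have hF : Fact (Nat.Prime 3) := ⟨Nat.prime_three⟩
  have h2 : (3 : ℕ) ≠ 2 := by norm_num
  obtain ⟨w, hw⟩ : ∃ w, Fintype.card K = 3 * w + 1 := ⟨Fintype.card K / 3, by omega⟩
  have hd : 3 ∣ Fintype.card K - 1 := by omega
  have hw3 : ¬ 3 ∣ w := by omega
  have hK0 : ((Fintype.card K - 1 : ℕ) : ZMod 3) = 0 := (ZMod.natCast_eq_zero_iff _ _).2 hd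
  obtain ⟨z, l, hz, hl, h0, hq⟩ := exists_log_one hτ hd
  -- the exponents are allowed
  have hok : ∀ x : ZMod 3, Ok τ x := by
    intro x
    refine ⟨by rw [hK0, zero_mul], ?_⟩
    have h3 : ((3 : ℕ) : ZMod 3) * x = 0 := by rw [ZMod.natCast_self, zero_mul]
    have h4 : (ch τ x (-1)) ^ 3 = 1 := by
      rw [← MulChar.pow_apply' _ (by norm_num), ch_pow hτ (by rw [hK0, zero_mul]) h3,
        MulChar.one_apply (isUnit_iff_ne_zero.2 (neg_ne_zero.2 one_ne_zero))]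
    have h5 : (ch τ x (-1)) ^ 2 = 1 := by
      rw [← map_pow, neg_one_sq, map_one]
    rw [pow_succ, h5, one_mul] at h4
    exact h4
  obtain ⟨hoka, q1, q2⟩ := qs_permuted hτ (perm_three ha) fun i => hok _
  have hinv : quad (ch τ (a 0))⁻¹ (ch τ (a 1))⁻¹ (ch τ (a 2))⁻¹ (ch τ (a 3))⁻¹ (ch τ (a 4))⁻¹ =
      qs τ (-a) := by
    rw [qs]
    simp only [Pi.neg_apply]
    rw [ch_neg hτ (hoka 0).1, ch_neg hτ (hoka 1).1, ch_neg hτ (hoka 2).1, ch_neg hτ (hoka 3).1,
      ch_neg hτ (hoka 4).1]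
  have hdir : quad (ch τ (a 0)) (ch τ (a 1)) (ch τ (a 2)) (ch τ (a 3)) (ch τ (a 4)) =
      qs τ a := rfl
  rw [hinv, hdir, q1, q2, qs, qs, hq, hq]
  -- the numbers of points
  have n12 : nn l 1 2 = nn l 1 1 := by
    have h := nn_neg_right h2 hl 1 1
    rwa [neg_one_three] at h
  have n21 : nn l 2 1 = nn l 1 1 := by
    have h := nn_neg_left h2 hl 1 1
    rwa [neg_one_three] at h
  have n22 : nn l 2 2 = nn l 1 1 := by
    have h := nn_neg_left h2 hl 1 2
    rw [neg_one_three] at h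
    rw [h, n12]
  have n20 : nn l 2 0 = nn l 1 0 := by
    have h := nn_neg_left h2 hl 1 0
    rwa [neg_one_three] at h
  have n02 : nn l 0 2 = nn l 0 1 := by
    have h := nn_neg_right h2 hl 0 1
    rwa [neg_one_three] at h
  have r0 := sum_lam hl h0 hw 0
  have r1 := sum_lam hl h0 hw 1
  have c1 := sum_dif h2 hl h0 hw 1
  rw [sum_zmod_three, if_pos rfl, n02] at r0
  rw [sum_zmod_three, if_neg one_ne_three, n12] at r1
  rw [sum_zmod_three, if_neg one_ne_three, n21] at c1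
  push_cast at r0 r1 c1
  -- the sums
  have hz3 : z ^ 2 = -1 - z := by
    have h := hz.geom_sum_eq_zero (by norm_num)
    rw [sum_range_succ, sum_range_succ, sum_range_one] at h
    linear_combination h
  have hT : ∀ s : ZMod 3, s ≠ 0 → ∑ P ∈ pts K, z ^ (s * (lam l P - dif l P)).val =
      ((9 * (nn l 1 1 - (w : ℤ) ^ 2) + 6 * w + 2 : ℤ) : L) := by
    intro s hs
    rw [sum_nn (l := l) (fun i j => z ^ (s * (i - j)).val)]
    simp only [sum_zmod_three]
    rw [n12, n21, n22, n20, n02]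
    obtain ⟨d00, d01, d02, d10, d11, d12, d20, d21, d22⟩ := sub_three
    rw [d00, d01, d02, d10, d11, d12, d20, d21, d22]
    obtain ⟨v0, v12, v1⟩ := val_three s hs
    have r0' := congrArg (Int.cast (R := L)) r0
    have r1' := congrArg (Int.cast (R := L)) r1
    have c1' := congrArg (Int.cast (R := L)) c1
    push_cast at r0' r1' c1' ⊢
    rw [v0, pow_zero]
    have hsum : z ^ (s * 1).val + z ^ (s * 2).val = -1 := by
      rcases v1 with h | h
      · have h' : (s * 2).val = 2 := by omega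
        rw [h, h', hz3]
        ring
      · have h' : (s * 2).val = 1 := by omega
        rw [h, h', hz3]
        ring
    linear_combination ((nn l 0 1 : L) + nn l 1 0 + nn l 1 1) * hsum + r0' - 3 * c1' - r1'
  have e1 : ∑ P ∈ pts K, z ^ (expo l (planeVec (1 : ZMod 3) 1) P).val =
      ((9 * (nn l 1 1 - (w : ℤ) ^ 2) + 6 * w + 2 : ℤ) : L) := by
    rw [← hT 1 one_ne_three]
    refine sum_congr rfl fun P _ => ?_
    congr 2
    simp only [expo, planeVec, Matrix.cons_val, lam, dif]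
    ring
  have e2 : ∑ P ∈ pts K, z ^ (expo l (-planeVec (1 : ZMod 3) 1) P).val =
      ((9 * (nn l 1 1 - (w : ℤ) ^ 2) + 6 * w + 2 : ℤ) : L) := by
    rw [← hT (-1) neg_one_ne_three]
    refine sum_congr rfl fun P _ => ?_
    congr 2
    simp only [expo, planeVec, Pi.neg_apply, Matrix.cons_val, lam, dif]
    ring
  rw [e1, e2, hw]
  intro heq
  have hint : (9 * (nn l 1 1 - (w : ℤ) ^ 2) + 6 * w + 2) *
      (9 * (nn l 1 1 - (w : ℤ) ^ 2) + 6 * w + 2) = 4 * (3 * w + 1) ^ 2 := by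
    have h : (((9 * (nn l 1 1 - (w : ℤ) ^ 2) + 6 * w + 2) *
        (9 * (nn l 1 1 - (w : ℤ) ^ 2) + 6 * w + 2) : ℤ) : L) =
          ((4 * (3 * w + 1) ^ 2 : ℤ) : L) := by
      push_cast at heq ⊢
      exact heq
    exact Int.cast_injective h
  have hn : nn l 1 1 = (w : ℤ) ^ 2 := by
    have h : (9 * (nn l 1 1 - (w : ℤ) ^ 2)) * (9 * (nn l 1 1 - (w : ℤ) ^ 2) + 12 * w + 4) = 0 := by
      linear_combination hint
    rcases mul_eq_zero.1 h with h' | h'
    · omega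
    · omega
  -- the sum of the products of the squares
  have hal := al_three hl h0 hw
  rw [al, sum_nn (l := l) (fun i j => i ^ 2 * j ^ 2)] at hal
  simp only [sum_zmod_three] at hal
  rw [n12, n21, n22, n20, n02, hn] at hal
  have h3 : (3 : ZMod 3) = 0 := by
    have := ZMod.natCast_self 3
    exact_mod_cast this
  push_cast at hal
  have hww : (w : ZMod 3) ^ 2 = 0 := by linear_combination hal - 8 * (w : ZMod 3) ^ 2 * h3
  have hw0 : (w : ZMod 3) = 0 := pow_eq_zero_iff (two_ne_zero) |>.1 hww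
  exact hw3 ((ZMod.natCast_eq_zero_iff _ _).1 hw0)

end

end Pool.Agent.Helper44.KM
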